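import Pool.Agent.Q201.KM.Slab
import Pool.Agent.TH845.Vit.RS

set_option autoImplicit false

open MeasureTheory Set Filter Topology ENNReal NNReal Metric
open scoped Pointwise

namespace Pool.Agent.Q201.KM

variable {n : ℕ}

theorem rs_pi {m : ℕ} {K : Set (Fin m → ℝ)} (hK : IsCompact K) (hc : Convex ℝ K)
    {x0 : Fin m → ℝ} (hx : x0 ∈ interior K) :
    volume (K - K) ≤ ((2 * m).choose m : ℝ≥0∞) * volume K := by
  set K0 : Set (Fin m → ℝ) := (fun y => y + x0) ⁻¹' K with hK0
  have h1 : H801NS.NB K0 := by
    refine ⟨?_, ?_, ?_⟩
    · exact (Homeomorph.addRight x0).isCompact_preimage.2 hK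
    · exact hc.translate_preimage_left x0
    · have : interior K0 = (Homeomorph.addRight x0) ⁻¹' interior K :=
        ((Homeomorph.addRight x0).preimage_interior K).symm
      rw [this]
      simpa using hx
  have h2 := Pool.Agent.TH845.Vit.RS.rs h1
  have h3 : volume K0 = volume K := measure_preimage_add_right _ _ _
  have h4 : Pool.Agent.TH845.Vit.RS.dif K0 = K - K := by
    ext z
    constructor
    · rintro ⟨a, ha, b, hb, rfl⟩
      exact ⟨a + x0, ha, b + x0, hb, by simp⟩
    · rintro ⟨a, ha, b, hb, rfl⟩
      exact ⟨a - x0, by simpa [hK0] using ha, b - x0, by simpa [hK0] using hb, by simp⟩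
  rwa [h3, h4] at h2

theorem rs_compact {K : Set (E n)} (hK : IsCompact K) (hc : Convex ℝ K)
    {x0 : E n} (hx : x0 ∈ interior K) :
    volume (K - K) ≤ ((2 * n).choose n : ℝ≥0∞) * volume K := by
  set φ : (Fin n → ℝ) ≃L[ℝ] E n := (EuclideanSpace.equiv (Fin n) ℝ).symm with hφ
  have hmp : MeasurePreserving φ volume volume := PiLp.volume_preserving_toLp (Fin n)
  have hemb : MeasurableEmbedding φ := φ.toHomeomorph.measurableEmbedding
  have hvol : ∀ S : Set (E n), volume (φ ⁻¹' S) = volume S := fun S =>
    hmp.measure_preimage_emb hemb S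
  have h1 : IsCompact (φ ⁻¹' K) := φ.toHomeomorph.isCompact_preimage.2 hK
  have h2 : Convex ℝ (φ ⁻¹' K) := hc.linear_preimage (φ : (Fin n → ℝ) →ₗ[ℝ] E n)
  have h3 : φ.symm x0 ∈ interior (φ ⁻¹' K) := by
    have : interior (φ ⁻¹' K) = φ.toHomeomorph ⁻¹' interior K :=
      (φ.toHomeomorph.preimage_interior K).symm
    rw [this]
    simpa using hx
  have h4 := rs_pi h1 h2 h3
  have h5 : φ ⁻¹' K - φ ⁻¹' K = φ ⁻¹' (K - K) := by
    ext z
    constructor
    · rintro ⟨a, ha, b, hb, rfl⟩
      exact ⟨φ a, ha, φ b, hb, by simp⟩
    · rintro ⟨a, ha, b, hb, hab⟩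
      refine ⟨φ.symm a, by simpa using ha, φ.symm b, by simpa using hb, ?_⟩
      simp only at hab ⊢
      rw [← map_sub, hab]
      simp
  rwa [h5, hvol, hvol] at h4

theorem rs_open {U : Set (E n)} (hU : IsOpen U) (hc : Convex ℝ U) :
    volume (U - U) ≤ ((2 * n).choose n : ℝ≥0∞) * volume U := by
  by_cases hne : U.Nonempty
  · obtain ⟨x0, hx0⟩ := hne
    set V : ℕ → Set (E n) := fun k => U ∩ ball x0 (k + 1) with hV
    have hVmono : Monotone V := by
      intro i j hij
      apply inter_subset_inter_right
      apply ball_subset_ball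
      have : (i:ℝ) ≤ j := by exact_mod_cast hij
      linarith
    have hVU : ⋃ k, V k = U := by
      apply subset_antisymm
      · exact iUnion_subset fun k => inter_subset_left
      · intro x hx
        obtain ⟨k, hk⟩ := exists_nat_gt (dist x x0)
        exact mem_iUnion.2 ⟨k, hx, by rw [mem_ball]; linarith⟩
    have hsub : U - U = ⋃ k, (V k - V k) := by
      apply subset_antisymm
      · rintro z ⟨a, ha, b, hb, rfl⟩
        rw [← hVU] at ha hb
        obtain ⟨i, hi⟩ := mem_iUnion.1 ha
        obtain ⟨j, hj⟩ := mem_iUnion.1 hb
        exact mem_iUnion.2 ⟨max i j, a, hVmono (le_max_left _ _) hi, b,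
          hVmono (le_max_right _ _) hj, rfl⟩
      · apply iUnion_subset
        intro k
        exact sub_subset_sub inter_subset_left inter_subset_left
    have hmono2 : Monotone fun k => V k - V k := fun i j hij =>
      sub_subset_sub (hVmono hij) (hVmono hij)
    rw [hsub, hmono2.measure_iUnion]
    apply iSup_le
    intro k
    have hVo : IsOpen (V k) := hU.inter isOpen_ball
    have hVc : Convex ℝ (V k) := hc.inter (convex_ball _ _)
    have hcomp : IsCompact (closure (V k)) :=
      (isBounded_ball.subset inter_subset_right).isCompact_closure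
    have hx : x0 ∈ interior (closure (V k)) := by
      apply interior_mono subset_closure
      rw [hVo.interior_eq]
      exact ⟨hx0, mem_ball_self (by positivity)⟩
    calc volume (V k - V k) ≤ volume (closure (V k) - closure (V k)) :=
          measure_mono (sub_subset_sub subset_closure subset_closure)
      _ ≤ ((2 * n).choose n : ℝ≥0∞) * volume (closure (V k)) :=
          rs_compact hcomp hVc.closure hx
      _ = ((2 * n).choose n : ℝ≥0∞) * volume (V k) := by
          congr 1
          apply le_antisymm _ (measure_mono subset_closure)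
          calc volume (closure (V k)) ≤ volume (V k ∪ frontier (V k)) :=
                measure_mono (closure_eq_self_union_frontier _).subset
            _ ≤ volume (V k) + volume (frontier (V k)) := measure_union_le _ _
            _ = volume (V k) := by rw [hVc.addHaar_frontier volume, add_zero]
      _ ≤ ((2 * n).choose n : ℝ≥0∞) * volume U := by gcongr; exact inter_subset_left
  · rw [not_nonempty_iff_eq_empty.1 hne]; simp

/-- The Rogers-Shephard inequality for all convex sets. -/
theorem rs_convex {K : Set (E n)} (hc : Convex ℝ K) :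
    volume (K - K) ≤ ((2 * n).choose n : ℝ≥0∞) * volume K := by
  by_cases hne : K.Nonempty
  · by_cases hint : (interior K).Nonempty
    · set U := interior K with hU
      have hUo : IsOpen U := isOpen_interior
      have hUc : Convex ℝ U := hc.interior
      have h1 : K ⊆ closure U := by
        rw [hU, hc.closure_interior_eq_closure_of_nonempty_interior hint]
        exact subset_closure
      have h2 : K - K ⊆ closure (U - U) := by
        rintro z ⟨a, ha, b, hb, rfl⟩
        have h3 : (a, b) ∈ closure (U ×ˢ U) := by
          rw [closure_prod_eq]; exact ⟨h1 ha, h1 hb⟩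
        have hcont : Continuous fun p : E n × E n => p.1 - p.2 := by fun_prop
        have h4 := image_closure_subset_closure_image hcont (mem_image_of_mem _ h3)
        refine closure_mono ?_ h4
        rintro _ ⟨⟨p, q⟩, ⟨hp, hq⟩, rfl⟩
        exact ⟨p, hp, q, hq, rfl⟩
      have hDc : Convex ℝ (U - U) := hUc.sub hUc
      calc volume (K - K) ≤ volume (closure (U - U)) := measure_mono h2
        _ ≤ volume ((U - U) ∪ frontier (U - U)) :=
            measure_mono (closure_eq_self_union_frontier _).subset
        _ ≤ volume (U - U) + volume (frontier (U - U)) := measure_union_le _ _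
        _ = volume (U - U) := by rw [hDc.addHaar_frontier volume, add_zero]
        _ ≤ ((2 * n).choose n : ℝ≥0∞) * volume U := rs_open hUo hUc
        _ ≤ _ := by gcongr; exact interior_subset
    · have h1 : affineSpan ℝ K ≠ ⊤ := by
        intro h
        exact hint (hc.interior_nonempty_iff_affineSpan_eq_top.2 h)
      have h2 : (affineSpan ℝ K).direction ≠ ⊤ := by
        intro h
        apply h1
        have hne2 : (affineSpan ℝ K : Set (E n)).Nonempty := (affineSpan_nonempty (k := ℝ)).2 hne
        exact (AffineSubspace.direction_eq_top_iff_of_nonempty hne2).1 h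
      have h3 : K - K ⊆ ((affineSpan ℝ K).direction : Set (E n)) := by
        rintro z ⟨a, ha, b, hb, rfl⟩
        exact AffineSubspace.vsub_mem_direction (subset_affineSpan ℝ K ha)
          (subset_affineSpan ℝ K hb)
      have h4 : volume (K - K) = 0 :=
        measure_mono_null h3 (Measure.addHaar_submodule _ _ h2)
      rw [h4]; exact zero_le
  · rw [not_nonempty_iff_eq_empty.1 hne]; simp

end Pool.Agent.Q201.KM
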