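import Pool.Agent.Q201.KM.Slab
import Pool.Agent.H742R2.Kk.Sphere

set_option autoImplicit false

open MeasureTheory Set Filter Topology ENNReal NNReal Metric
open scoped Pointwise

namespace Pool.Agent.Q201.KM

theorem pow_sum_le {ι : Type*} (s : Finset ι) (m : ℕ) (f : ι → ℝ≥0∞) :
    (∑ i ∈ s, f i) ^ (m + 1) ≤ (s.card : ℝ≥0∞) ^ m * ∑ i ∈ s, f i ^ (m + 1) := by
  have h := ENNReal.rpow_sum_le_const_mul_sum_rpow (s := s) (f := f) (p := (m:ℝ) + 1)
    (by have : (0:ℝ) ≤ m := Nat.cast_nonneg m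
        linarith)
  have e1 : ∀ x : ℝ≥0∞, x ^ ((m:ℝ) + 1) = x ^ (m + 1) := by
    intro x
    have : ((m:ℝ) + 1) = ((m + 1 : ℕ) : ℝ) := by push_cast; rfl
    rw [this, ENNReal.rpow_natCast]
  have e2 : (m:ℝ) + 1 - 1 = ((m : ℕ) : ℝ) := by ring
  rw [e2, ENNReal.rpow_natCast] at h
  simpa only [e1] using h

/-- The surface measure. -/
noncomputable abbrev sg (m : ℕ) : Measure (sphere (0 : E (m + 1)) 1) :=
  (volume : Measure (E (m + 1))).toSphere

/-- The estimate for a set covered by `N` sets. -/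
theorem set_est (m : ℕ) {N : ℕ} {S : Set (E (m + 1))} (A : Fin N → Set (E (m + 1)))
    (hA : ∀ i, NullMeasurableSet (A i)) (hS : S ⊆ ⋃ i, A i) :
    ∃ M : sphere (0 : E (m + 1)) 1 → ℝ≥0∞, Measurable M ∧
      (∀ (e : sphere (0 : E (m + 1)) 1) (δ : ℝ) (b : E (m + 1)),
        volume (tb δ (e : E (m + 1)) b ∩ S) ≤ M e * volume (tb δ (e : E (m + 1)) b)) ∧
      ∫⁻ e, M e ^ (m + 1) ∂(sg m) ≤ (m + 1) * (N : ℝ≥0∞) ^ m * ∑ i, volume (A i - A i) := by
  set D : Fin N → Set (E (m + 1)) := fun i => toMeasurable volume (A i - A i) with hD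
  have hDm : ∀ i, MeasurableSet (D i) := fun i => measurableSet_toMeasurable _ _
  have hDv : ∀ i, volume (D i) = volume (A i - A i) := fun i => measure_toMeasurable _
  refine ⟨fun e => ∑ i, volume {t : ℝ | 0 < t ∧ t • (e : E (m + 1)) ∈ D i}, ?_, ?_, ?_⟩
  · exact Finset.measurable_sum _ (fun i _ => meas_ray m (hDm i))
  · intro e δ b
    have he : ‖(e : E (m + 1))‖ = 1 := by simp
    calc volume (tb δ (e : E (m + 1)) b ∩ S)
        ≤ volume (⋃ i, (tb δ (e : E (m + 1)) b ∩ A i)) := by
          apply measure_mono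
          rintro y ⟨hy, hyS⟩
          obtain ⟨i, hi⟩ := mem_iUnion.1 (hS hyS)
          exact mem_iUnion.2 ⟨i, hy, hi⟩
      _ ≤ ∑' i, volume (tb δ (e : E (m + 1)) b ∩ A i) := measure_iUnion_le _
      _ = ∑ i, volume (tb δ (e : E (m + 1)) b ∩ A i) := tsum_fintype _
      _ ≤ ∑ i, volume {t : ℝ | 0 < t ∧ t • (e : E (m + 1)) ∈ D i} *
            volume (tb δ (e : E (m + 1)) b) := by
          apply Finset.sum_le_sum
          intro i _
          exact avg_le (hA i) (fun x hx y hy =>
            subset_toMeasurable _ _ (sub_mem_sub hx hy)) he δ b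
      _ = _ := by rw [Finset.sum_mul]
  · calc ∫⁻ e, (∑ i, volume {t : ℝ | 0 < t ∧ t • (e : E (m + 1)) ∈ D i}) ^ (m + 1) ∂(sg m)
        ≤ ∫⁻ e, (N : ℝ≥0∞) ^ m *
            ∑ i, (volume {t : ℝ | 0 < t ∧ t • (e : E (m + 1)) ∈ D i}) ^ (m + 1) ∂(sg m) := by
          apply lintegral_mono
          intro e
          have := pow_sum_le (Finset.univ : Finset (Fin N)) m
            (fun i => volume {t : ℝ | 0 < t ∧ t • (e : E (m + 1)) ∈ D i})
          simpa using this
      _ = (N : ℝ≥0∞) ^ m * ∑ i, ∫⁻ e : sphere (0 : E (m + 1)) 1,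
            (volume {t : ℝ | 0 < t ∧ t • (e : E (m + 1)) ∈ D i}) ^ (m + 1) ∂(sg m) := by
          rw [lintegral_const_mul' _ _ (ENNReal.pow_ne_top (ENNReal.natCast_ne_top _)),
            lintegral_finsetSum]
          intro i _
          exact (meas_ray m (hDm i)).pow_const _
      _ ≤ (N : ℝ≥0∞) ^ m * ∑ i, (m + 1) * volume (D i) := by
          gcongr with i _
          exact ray_bound m (hDm i)
      _ = _ := by
          simp_rw [hDv]
          rw [← Finset.mul_sum]; ring

/-- Pointwise level decomposition. -/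
theorem level_pt (A x : ℝ≥0∞) (J : ℕ) :
    x ≤ A + (∑ j ∈ Finset.range J, A * 2 ^ (j + 1) * (if A * 2 ^ j < x then 1 else 0)) +
      (if A * 2 ^ J < x then x else 0) := by
  induction J with
  | zero =>
    by_cases h : A * 2 ^ 0 < x
    · rw [if_pos h]; exact le_add_left le_rfl
    · rw [if_neg h]
      simp only [pow_zero, mul_one, not_lt] at h
      simpa using h
  | succ J ih =>
    by_cases h : A * 2 ^ (J + 1) < x
    · rw [if_pos h]; exact le_add_left le_rfl
    · rw [if_neg h, add_zero, Finset.sum_range_succ]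
      by_cases h2 : A * 2 ^ J < x
      · rw [if_pos h2, mul_one]
        calc x ≤ A * 2 ^ (J + 1) := not_lt.1 h
          _ ≤ _ := by
            rw [← add_assoc]; exact le_add_left le_rfl
      · rw [if_neg h2, add_zero] at ih
        rw [if_neg h2, mul_zero, add_zero]
        exact ih

/-- Summation of the levels. -/
theorem level_sum (m : ℕ) (A x : ℝ≥0∞) (J : ℕ) :
    ∑ j ∈ Finset.range J, (A * 2 ^ j) ^ (m + 1) * (if A * 2 ^ j < x then 1 else 0) ≤
      (min (2 * x) (A * 2 ^ J)) ^ (m + 1) := by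
  induction J with
  | zero => simp
  | succ J ih =>
    rw [Finset.sum_range_succ]
    by_cases h : A * 2 ^ J < x
    · rw [if_pos h, mul_one]
      have h1 : min (2 * x) (A * 2 ^ (J + 1)) = A * 2 ^ (J + 1) := by
        apply min_eq_right
        calc A * 2 ^ (J + 1) = 2 * (A * 2 ^ J) := by ring
          _ ≤ 2 * x := by gcongr
      rw [h1]
      calc _ ≤ (A * 2 ^ J) ^ (m + 1) + (A * 2 ^ J) ^ (m + 1) := by
            gcongr
            refine ih.trans ?_
            gcongr
            exact min_le_right _ _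
        _ = 2 * (A * 2 ^ J) ^ (m + 1) := by ring
        _ ≤ 2 ^ (m + 1) * (A * 2 ^ J) ^ (m + 1) := by
            gcongr
            calc (2:ℝ≥0∞) = 2 ^ 1 := by norm_num
              _ ≤ 2 ^ (m + 1) := pow_le_pow_right₀ (by norm_num) (by omega)
        _ = (A * 2 ^ (J + 1)) ^ (m + 1) := by
            rw [← mul_pow]; congr 1; ring
    · rw [if_neg h, mul_zero, add_zero]
      refine ih.trans ?_
      gcongr ?_ ^ _
      apply min_le_min le_rfl
      gcongr
      · norm_num
      · omega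

/-- The maximal function. -/
noncomputable def km {n : ℕ} (δ : ℝ) (g : E n → ℝ≥0∞) (e : E n) : ℝ≥0∞ :=
  ⨆ a : E n, (volume (tb δ e a))⁻¹ * ∫⁻ y in tb δ e a, g y

theorem tb_volume_ne_top {n : ℕ} (δ : ℝ) {e : E n} (he : ‖e‖ = 1) (b : E n) :
    volume (tb δ e b) ≠ ∞ := by
  have h1 : tb δ e b ⊆ closedBall b (1 / 2 + δ) := by
    rintro y ⟨h1, h2⟩
    rw [mem_closedBall, dist_eq_norm]
    calc ‖y - b‖ = ‖(inner ℝ (y - b) e : ℝ) • e + ((y - b) - (inner ℝ (y - b) e : ℝ) • e)‖ := by
          congr 1; abel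
      _ ≤ ‖(inner ℝ (y - b) e : ℝ) • e‖ + ‖(y - b) - (inner ℝ (y - b) e : ℝ) • e‖ :=
          norm_add_le _ _
      _ ≤ 1 / 2 + δ := by
          rw [norm_smul, he, mul_one, Real.norm_eq_abs]
          exact add_le_add h1 h2
  exact ((measure_mono h1).trans_lt measure_closedBall_lt_top).ne

/-- The main estimate: if every superlevel set `{g > s}` is covered by `N` sets whose difference
sets have total measure at most `K |{g > s}|`. -/
theorem fun_est (m : ℕ) : ∃ C : ℝ≥0∞, C ≠ ∞ ∧ ∀ (N : ℕ) (K : ℝ≥0∞) (δ : ℝ) (g : E (m + 1) → ℝ≥0∞)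
    (J : ℕ), 1 ≤ N → 1 ≤ K → 0 < δ → 1 / δ ≤ 2 ^ J → Measurable g →
    (∀ s : ℝ≥0∞, s ≠ 0 → s ≠ ∞ → ∃ A : Fin N → Set (E (m + 1)), (∀ i, NullMeasurableSet (A i)) ∧
      {x | s < g x} ⊆ ⋃ i, A i ∧ ∑ i, volume (A i - A i) ≤ K * volume {x | s < g x}) →
    ∫⁻ e : sphere (0 : E (m + 1)) 1, km δ g e ^ (m + 1) ∂(sg m) ≤
      C * ((J : ℝ≥0∞) + 1) ^ m * ((N : ℝ≥0∞) ^ m * K) * ∫⁻ y, g y ^ (m + 1) := by
  obtain ⟨c, hc, hvol⟩ := Pool.Agent.H742R2.Kk.volume_tube m
  set cc : ℝ≥0∞ := ENNReal.ofReal c with hcc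
  have hcc0 : cc ≠ 0 := by rw [hcc]; simpa using hc
  have hcct : cc ≠ ∞ := ENNReal.ofReal_ne_top
  set C : ℝ≥0∞ := (1 + cc⁻¹) ^ (m + 1) * (sg m) univ + 2 ^ (m + 1) * ((m + 1) * 2 ^ (m + 1)) with hC
  refine ⟨C, ?_, ?_⟩
  · apply ENNReal.add_ne_top.2
    constructor
    · apply ENNReal.mul_ne_top
      · apply ENNReal.pow_ne_top
        exact ENNReal.add_ne_top.2 ⟨ENNReal.one_ne_top, ENNReal.inv_ne_top.2 hcc0⟩
      · exact measure_ne_top _ _
    · apply ENNReal.mul_ne_top (ENNReal.pow_ne_top (by norm_num))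
      apply ENNReal.mul_ne_top
      · exact ENNReal.add_ne_top.2 ⟨ENNReal.natCast_ne_top _, ENNReal.one_ne_top⟩
      · exact ENNReal.pow_ne_top (by norm_num)
  intro N K δ g J hN hK hδ hJ hg hcov
  set F : ℝ≥0∞ := ∫⁻ y, g y ^ (m + 1) with hF
  have hC0 : C ≠ 0 := by
    rw [hC]
    have : (2:ℝ≥0∞) ^ (m + 1) * ((m + 1) * 2 ^ (m + 1)) ≠ 0 := by
      apply mul_ne_zero (by positivity)
      apply mul_ne_zero
      · have : (0:ℝ≥0∞) < (m:ℝ≥0∞) + 1 := by positivity
        exact this.ne'
      · positivity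
    intro h
    exact this (add_eq_zero.1 h).2
  have hN0 : (N : ℝ≥0∞) ^ m ≠ 0 := by
    apply pow_ne_zero
    have : N ≠ 0 := by omega
    exact_mod_cast this
  have hK0 : K ≠ 0 := (lt_of_lt_of_le zero_lt_one hK).ne'
  have hJ0 : ((J : ℝ≥0∞) + 1) ^ m ≠ 0 := by
    apply pow_ne_zero
    have : (0:ℝ≥0∞) < (J:ℝ≥0∞) + 1 := by positivity
    exact this.ne'
  by_cases hFt : F = ∞
  · rw [hFt, ENNReal.mul_top]
    · exact le_top
    · exact mul_ne_zero (mul_ne_zero hC0 hJ0) (mul_ne_zero hN0 hK0)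
  by_cases hF0 : F = 0
  · have h1 : ∀ᵐ y, g y = 0 := by
      rw [hF, lintegral_eq_zero_iff (hg.pow_const _)] at hF0
      filter_upwards [hF0] with y hy
      simpa using hy
    have h2 : ∀ e : E (m + 1), km δ g e = 0 := by
      intro e
      unfold km
      rw [ENNReal.iSup_eq_zero]
      intro a
      rw [setLIntegral_congr_fun_ae (tb_closed δ e a).measurableSet
        (g := fun _ => 0) (h1.mono fun y hy _ => hy)]
      simp
    simp [h2]
  -- the base level
  set A : ℝ≥0∞ := F ^ (((m + 1 : ℕ) : ℝ)⁻¹) with hA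
  have hAF : A ^ (m + 1) = F := by
    rw [hA, ← ENNReal.rpow_natCast, ← ENNReal.rpow_mul, inv_mul_cancel₀ (by positivity),
      ENNReal.rpow_one]
  have hA0 : A ≠ 0 := by
    intro h; rw [h] at hAF; simp at hAF; exact hF0 hAF.symm
  have hAt : A ≠ ∞ := by
    intro h; rw [h] at hAF; simp at hAF; exact hFt hAF.symm
  -- levels
  have hlev : ∀ j : ℕ, A * 2 ^ j ≠ 0 ∧ A * 2 ^ j ≠ ∞ := fun j =>
    ⟨mul_ne_zero hA0 (by positivity), ENNReal.mul_ne_top hAt (ENNReal.pow_ne_top (by norm_num))⟩
  set L : ℕ → Set (E (m + 1)) := fun j => {x | A * 2 ^ j < g x} with hL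
  have hLm : ∀ j, MeasurableSet (L j) := fun j => measurableSet_lt measurable_const hg
  have hM : ∀ j : ℕ, ∃ M : sphere (0 : E (m + 1)) 1 → ℝ≥0∞, Measurable M ∧
      (∀ (e : sphere (0 : E (m + 1)) 1) (δ : ℝ) (b : E (m + 1)),
        volume (tb δ (e : E (m + 1)) b ∩ L j) ≤ M e * volume (tb δ (e : E (m + 1)) b)) ∧
      ∫⁻ e, M e ^ (m + 1) ∂(sg m) ≤ (m + 1) * (N : ℝ≥0∞) ^ m * (K * volume (L j)) := by
    intro j
    obtain ⟨B, hB1, hB2, hB3⟩ := hcov (A * 2 ^ j) (hlev j).1 (hlev j).2
    obtain ⟨M, h1, h2, h3⟩ := set_est m B hB1 hB2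
    exact ⟨M, h1, h2, h3.trans (by gcongr)⟩
  choose M hMm hMle hMint using hM
  -- the estimate in one direction
  have hdir : ∀ e : sphere (0 : E (m + 1)) 1, km δ g e ≤
      ∑ k ∈ Finset.range (J + 1), (match k with
        | 0 => A * (1 + cc⁻¹)
        | j + 1 => A * 2 ^ (j + 1) * M j e) := by
    intro e
    have he : ‖(e : E (m + 1))‖ = 1 := by simp
    unfold km
    apply iSup_le
    intro b
    set T := tb δ (e : E (m + 1)) b with hT
    have hTm : MeasurableSet T := (tb_closed _ _ _).measurableSet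
    have hTv : cc * ENNReal.ofReal δ ^ m ≤ volume T := by
      have := hvol δ e b hδ he
      rw [ENNReal.ofReal_mul hc.le, ENNReal.ofReal_pow hδ.le] at this
      exact this
    have hT0 : volume T ≠ 0 := by
      intro h
      rw [h] at hTv
      have : cc * ENNReal.ofReal δ ^ m ≠ 0 := mul_ne_zero hcc0 (by
        apply pow_ne_zero
        simpa using hδ)
      exact this (le_antisymm hTv bot_le)
    have hTt : volume T ≠ ∞ := tb_volume_ne_top δ he b
    -- the top level
    have htop : ∫⁻ y in T, (if A * 2 ^ J < g y then g y else 0) ≤ A * ENNReal.ofReal δ ^ m := by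
      have h1 : ∀ y, (A * 2 ^ J) ^ m * (if A * 2 ^ J < g y then g y else 0) ≤ g y ^ (m + 1) := by
        intro y
        split_ifs with h
        · rw [pow_succ]; gcongr
        · simp
      have h2 : (A * 2 ^ J) ^ m * ∫⁻ y in T, (if A * 2 ^ J < g y then g y else 0) ≤ A ^ (m + 1) := by
        rw [← lintegral_const_mul' _ _ (ENNReal.pow_ne_top (hlev J).2), hAF]
        calc _ ≤ ∫⁻ y in T, g y ^ (m + 1) := lintegral_mono (fun y => h1 y)
          _ ≤ F := setLIntegral_le_lintegral _ _
      have h3 : (1:ℝ≥0∞) ≤ 2 ^ J * ENNReal.ofReal δ := by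
        have h4 : (1:ℝ) ≤ 2 ^ J * δ := by
          rw [div_le_iff₀ hδ] at hJ; exact hJ
        calc (1:ℝ≥0∞) = ENNReal.ofReal 1 := by simp
          _ ≤ ENNReal.ofReal (2 ^ J * δ) := ENNReal.ofReal_le_ofReal h4
          _ = _ := by
            rw [ENNReal.ofReal_mul (by positivity), ENNReal.ofReal_pow (by norm_num)]
            norm_num
      have h5 : (A * 2 ^ J) ^ m * ∫⁻ y in T, (if A * 2 ^ J < g y then g y else 0) ≤
          (A * 2 ^ J) ^ m * (A * ENNReal.ofReal δ ^ m) := by
        calc _ ≤ A ^ (m + 1) := h2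
          _ = A ^ (m + 1) * 1 ^ m := by simp
          _ ≤ A ^ (m + 1) * (2 ^ J * ENNReal.ofReal δ) ^ m := by gcongr
          _ = _ := by ring
      exact (ENNReal.mul_le_mul_iff_right (pow_ne_zero _ (hlev J).1)
        (ENNReal.pow_ne_top (hlev J).2)).1 h5
    have hint : ∫⁻ y in T, g y ≤ A * volume T +
        (∑ j ∈ Finset.range J, A * 2 ^ (j + 1) * (M j e * volume T)) + A * ENNReal.ofReal δ ^ m := by
      calc ∫⁻ y in T, g y ≤ ∫⁻ y in T, (A + (∑ j ∈ Finset.range J, A * 2 ^ (j + 1) *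
            (if A * 2 ^ j < g y then 1 else 0)) + (if A * 2 ^ J < g y then g y else 0)) :=
            lintegral_mono (fun y => level_pt A (g y) J)
        _ = A * volume T + (∑ j ∈ Finset.range J, A * 2 ^ (j + 1) * volume (T ∩ L j)) +
            ∫⁻ y in T, (if A * 2 ^ J < g y then g y else 0) := by
            have hmj : ∀ j : ℕ, Measurable fun y => A * 2 ^ (j + 1) *
                (if A * 2 ^ j < g y then (1:ℝ≥0∞) else 0) := fun j =>
              (Measurable.ite (hLm j) measurable_const measurable_const).const_mul _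
            rw [lintegral_add_left, lintegral_add_left, setLIntegral_const,
              lintegral_finsetSum]
            · congr 2
              apply Finset.sum_congr rfl
              intro j _
              rw [lintegral_const_mul' _ _ (hlev (j + 1)).2]
              congr 1
              have : (fun y => if A * 2 ^ j < g y then (1:ℝ≥0∞) else 0) = (L j).indicator 1 := by
                funext y
                by_cases h : A * 2 ^ j < g y
                · rw [if_pos h, indicator_of_mem (show y ∈ L j from h)]; rfl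
                · rw [if_neg h, indicator_of_notMem (show y ∉ L j from h)]
              rw [this, lintegral_indicator_one (hLm j), Measure.restrict_apply (hLm j), inter_comm]
            · intro j _; exact hmj j
            · exact measurable_const
            · exact measurable_const.add (Finset.measurable_sum _ (fun j _ => hmj j))
        _ ≤ _ := by
            gcongr with j _
            · exact hMle j e δ b
    calc (volume T)⁻¹ * ∫⁻ y in T, g y
        ≤ (volume T)⁻¹ * (A * volume T +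
          (∑ j ∈ Finset.range J, A * 2 ^ (j + 1) * (M j e * volume T)) +
            A * ENNReal.ofReal δ ^ m) := by gcongr
      _ = A * ((volume T)⁻¹ * volume T) + (∑ j ∈ Finset.range J, A * 2 ^ (j + 1) *
            (M j e * ((volume T)⁻¹ * volume T))) + A * ((volume T)⁻¹ * ENNReal.ofReal δ ^ m) := by
          rw [mul_add, mul_add, Finset.mul_sum]
          congr 1
          · congr 1
            · ring
            · apply Finset.sum_congr rfl
              intro j _; ring
          · ring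
      _ ≤ A * 1 + (∑ j ∈ Finset.range J, A * 2 ^ (j + 1) * (M j e * 1)) + A * cc⁻¹ := by
          rw [ENNReal.inv_mul_cancel hT0 hTt]
          gcongr
          have h1 : ENNReal.ofReal δ ^ m ≠ 0 := pow_ne_zero _ (by simpa using hδ)
          have h2 : ENNReal.ofReal δ ^ m ≠ ∞ := ENNReal.pow_ne_top ENNReal.ofReal_ne_top
          calc (volume T)⁻¹ * ENNReal.ofReal δ ^ m
              ≤ (cc * ENNReal.ofReal δ ^ m)⁻¹ * ENNReal.ofReal δ ^ m := by gcongr
            _ = cc⁻¹ := by
              rw [ENNReal.mul_inv (Or.inl hcc0) (Or.inl hcct), mul_assoc,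
                ENNReal.inv_mul_cancel h1 h2, mul_one]
      _ = _ := by
          rw [Finset.sum_range_succ']
          simp only [mul_one]
          ring
  -- integrate
  have hpow : ∀ e : sphere (0 : E (m + 1)) 1, km δ g e ^ (m + 1) ≤
      ((J : ℝ≥0∞) + 1) ^ m * ((A * (1 + cc⁻¹)) ^ (m + 1) +
        ∑ j ∈ Finset.range J, (A * 2 ^ (j + 1)) ^ (m + 1) * M j e ^ (m + 1)) := by
    intro e
    calc km δ g e ^ (m + 1) ≤ (∑ k ∈ Finset.range (J + 1), (match k with
        | 0 => A * (1 + cc⁻¹)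
        | j + 1 => A * 2 ^ (j + 1) * M j e)) ^ (m + 1) := by gcongr; exact hdir e
      _ ≤ _ := pow_sum_le _ _ _
      _ = _ := by
        rw [Finset.card_range, Finset.sum_range_succ']
        push_cast
        congr 1
        rw [add_comm]
        congr 1
        apply Finset.sum_congr rfl
        intro j _
        rw [mul_pow]
  calc ∫⁻ e : sphere (0 : E (m + 1)) 1, km δ g e ^ (m + 1) ∂(sg m)
      ≤ ∫⁻ e : sphere (0 : E (m + 1)) 1, ((J : ℝ≥0∞) + 1) ^ m * ((A * (1 + cc⁻¹)) ^ (m + 1) +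
        ∑ j ∈ Finset.range J, (A * 2 ^ (j + 1)) ^ (m + 1) * M j e ^ (m + 1)) ∂(sg m) :=
        lintegral_mono hpow
    _ = ((J : ℝ≥0∞) + 1) ^ m * ((A * (1 + cc⁻¹)) ^ (m + 1) * (sg m) univ +
        ∑ j ∈ Finset.range J, (A * 2 ^ (j + 1)) ^ (m + 1) * ∫⁻ e, M j e ^ (m + 1) ∂(sg m)) := by
        rw [lintegral_const_mul', lintegral_add_left measurable_const, lintegral_const,
          lintegral_finsetSum]
        · congr 2
          apply Finset.sum_congr rfl
          intro j _
          rw [lintegral_const_mul' _ _ (ENNReal.pow_ne_top (hlev (j + 1)).2)]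
        · intro j _
          exact ((hMm j).pow_const _).const_mul _
        · exact ENNReal.pow_ne_top (ENNReal.add_ne_top.2
            ⟨ENNReal.natCast_ne_top _, ENNReal.one_ne_top⟩)
    _ ≤ ((J : ℝ≥0∞) + 1) ^ m * ((A * (1 + cc⁻¹)) ^ (m + 1) * (sg m) univ +
        ∑ j ∈ Finset.range J, (A * 2 ^ (j + 1)) ^ (m + 1) *
          ((m + 1) * (N : ℝ≥0∞) ^ m * (K * volume (L j)))) := by
        gcongr with j _
        exact hMint j
    _ = ((J : ℝ≥0∞) + 1) ^ m * ((1 + cc⁻¹) ^ (m + 1) * (sg m) univ * F +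
        2 ^ (m + 1) * (m + 1) * ((N : ℝ≥0∞) ^ m * K) *
          ∑ j ∈ Finset.range J, (A * 2 ^ j) ^ (m + 1) * volume (L j)) := by
        congr 1
        congr 1
        · rw [mul_pow, hAF]; ring
        · rw [Finset.mul_sum]
          apply Finset.sum_congr rfl
          intro j _
          ring
    _ ≤ ((J : ℝ≥0∞) + 1) ^ m * ((1 + cc⁻¹) ^ (m + 1) * (sg m) univ * F +
        2 ^ (m + 1) * (m + 1) * ((N : ℝ≥0∞) ^ m * K) * (2 ^ (m + 1) * F)) := by
        gcongr
        calc ∑ j ∈ Finset.range J, (A * 2 ^ j) ^ (m + 1) * volume (L j)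
            = ∫⁻ y, ∑ j ∈ Finset.range J, (A * 2 ^ j) ^ (m + 1) *
                (if A * 2 ^ j < g y then 1 else 0) := by
              rw [lintegral_finsetSum]
              · apply Finset.sum_congr rfl
                intro j _
                rw [lintegral_const_mul' _ _ (ENNReal.pow_ne_top (hlev j).2)]
                congr 1
                have : (fun y => if A * 2 ^ j < g y then (1:ℝ≥0∞) else 0) = (L j).indicator 1 := by
                  funext y
                  by_cases h : A * 2 ^ j < g y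
                  · rw [if_pos h, indicator_of_mem (show y ∈ L j from h)]; rfl
                  · rw [if_neg h, indicator_of_notMem (show y ∉ L j from h)]
                rw [this, lintegral_indicator_one (hLm j)]
              · intro j _
                exact (Measurable.ite (hLm j) measurable_const measurable_const).const_mul _
          _ ≤ ∫⁻ y, 2 ^ (m + 1) * g y ^ (m + 1) := by
              apply lintegral_mono
              intro y
              refine (level_sum m A (g y) J).trans ?_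
              calc (min (2 * g y) (A * 2 ^ J)) ^ (m + 1) ≤ (2 * g y) ^ (m + 1) := by
                    gcongr
                    exact min_le_left _ _
                _ = 2 ^ (m + 1) * g y ^ (m + 1) := mul_pow _ _ _
          _ = 2 ^ (m + 1) * F := by
              rw [lintegral_const_mul' _ _ (ENNReal.pow_ne_top (by norm_num))]
    _ ≤ ((J : ℝ≥0∞) + 1) ^ m * ((1 + cc⁻¹) ^ (m + 1) * (sg m) univ * (((N : ℝ≥0∞) ^ m * K) * F) +
        2 ^ (m + 1) * (m + 1) * ((N : ℝ≥0∞) ^ m * K) * (2 ^ (m + 1) * F)) := by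
        gcongr
        have h1 : (1:ℝ≥0∞) ≤ (N : ℝ≥0∞) ^ m * K := by
          have h2 : (1:ℝ≥0∞) ≤ (N : ℝ≥0∞) := by exact_mod_cast hN
          calc (1:ℝ≥0∞) = 1 ^ m * 1 := by simp
            _ ≤ (N : ℝ≥0∞) ^ m * K := by gcongr
        calc F = 1 * F := (one_mul _).symm
          _ ≤ _ := by gcongr
    _ = _ := by rw [hC]; ring

end Pool.Agent.Q201.KM
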