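import Mathlib

set_option autoImplicit false

open MeasureTheory Set Filter Topology ENNReal NNReal Metric
open scoped Pointwise

namespace Pool.Agent.Q201.KM

/-- Among the subsets of `(0, ∞)` of given length the integral of `t ^ m` is smallest for an
interval. -/
theorem bathtub (m : ℕ) {P : Set ℝ} (hP : MeasurableSet P) (hP0 : P ⊆ Ioi 0) :
    (volume P) ^ (m + 1) ≤ (m + 1) * ∫⁻ t in P, ENNReal.ofReal (t ^ m) := by
  -- enough: for every real `0 < x < |P|`
  have key : ∀ x : ℝ, 0 < x → ENNReal.ofReal x < volume P →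
      ENNReal.ofReal x ^ (m + 1) ≤ (m + 1) * ∫⁻ t in P, ENNReal.ofReal (t ^ m) := by
    intro x hx hxP
    have h0 : ∫⁻ t in Ioo 0 x, ENNReal.ofReal (t ^ m) = ENNReal.ofReal (x ^ (m + 1) / (m + 1)) := by
      rw [Measure.restrict_congr_set Ioo_ae_eq_Ioc,
        ← ofReal_integral_eq_lintegral_ofReal (intervalIntegral.intervalIntegrable_pow m).1,
        ← intervalIntegral.integral_of_le hx.le]
      · simp
      · filter_upwards [ae_restrict_mem measurableSet_Ioc] with y hy
        exact pow_nonneg hy.1.le _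
    have h1 : volume (Ioo 0 x \ P) ≤ volume (P \ Ioo 0 x) := by
      have e1 : volume (Ioo 0 x ∩ P) + volume (Ioo 0 x \ P) = volume (Ioo 0 x) :=
        measure_inter_add_sdiff _ hP
      have e2 : volume (P ∩ Ioo 0 x) + volume (P \ Ioo 0 x) = volume P :=
        measure_inter_add_sdiff _ measurableSet_Ioo
      have e3 : volume (Ioo 0 x) = ENNReal.ofReal x := by simp
      have e4 : volume (P ∩ Ioo 0 x) ≠ ∞ :=
        ((measure_mono inter_subset_right).trans_lt (by rw [e3]; exact ENNReal.ofReal_lt_top)).ne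
      rw [inter_comm] at e1
      have : volume (P ∩ Ioo 0 x) + volume (Ioo 0 x \ P) ≤
          volume (P ∩ Ioo 0 x) + volume (P \ Ioo 0 x) := by
        rw [e1, e2, e3]; exact hxP.le
      exact (ENNReal.add_le_add_iff_left e4).1 this
    have h2 : ∫⁻ t in Ioo 0 x, ENNReal.ofReal (t ^ m) ≤ ∫⁻ t in P, ENNReal.ofReal (t ^ m) := by
      rw [← lintegral_inter_add_sdiff _ (Ioo 0 x) hP,
        ← lintegral_inter_add_sdiff _ P (measurableSet_Ioo (a := (0:ℝ)) (b := x)),
        inter_comm P (Ioo 0 x)]
      refine add_le_add le_rfl ?_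
      calc ∫⁻ t in Ioo 0 x \ P, ENNReal.ofReal (t ^ m)
          ≤ ∫⁻ t in Ioo 0 x \ P, ENNReal.ofReal (x ^ m) := by
            apply setLIntegral_mono' (measurableSet_Ioo.diff hP)
            intro t ht
            apply ENNReal.ofReal_le_ofReal
            exact pow_le_pow_left₀ ht.1.1.le ht.1.2.le _
        _ = ENNReal.ofReal (x ^ m) * volume (Ioo 0 x \ P) := by rw [setLIntegral_const]
        _ ≤ ENNReal.ofReal (x ^ m) * volume (P \ Ioo 0 x) := by gcongr
        _ = ∫⁻ t in P \ Ioo 0 x, ENNReal.ofReal (x ^ m) := by rw [setLIntegral_const]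
        _ ≤ ∫⁻ t in P \ Ioo 0 x, ENNReal.ofReal (t ^ m) := by
            apply setLIntegral_mono' (hP.diff measurableSet_Ioo)
            intro t ht
            apply ENNReal.ofReal_le_ofReal
            have h3 : x ≤ t := by
              by_contra h4
              exact ht.2 ⟨hP0 ht.1, not_le.1 h4⟩
            exact pow_le_pow_left₀ hx.le h3 _
    calc ENNReal.ofReal x ^ (m + 1) = (m + 1) * ENNReal.ofReal (x ^ (m + 1) / (m + 1)) := by
          have : ((m:ℝ≥0∞) + 1) = ENNReal.ofReal ((m:ℝ) + 1) := by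
            rw [ENNReal.ofReal_add (by positivity) (by norm_num)]; simp
          rw [this, ← ENNReal.ofReal_mul (by positivity), ← ENNReal.ofReal_pow hx.le]
          congr 1
          field_simp
      _ ≤ _ := by rw [← h0]; gcongr
  by_cases hz : volume P = 0
  · rw [hz]; simp
  -- let x tend to |P|
  have hcont : Continuous fun y : ℝ≥0∞ => y ^ (m + 1) := ENNReal.continuous_pow _
  have hne : (Iio (volume P)).Nonempty := ⟨0, by simpa [pos_iff_ne_zero] using hz⟩
  have hcl : volume P ∈ closure (Iio (volume P)) := by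
    rw [closure_Iio' hne]
    simp
  have hsub : Iio (volume P) ⊆ {y : ℝ≥0∞ | y ^ (m + 1) ≤
      (m + 1) * ∫⁻ t in P, ENNReal.ofReal (t ^ m)} := by
    intro y hy
    have hy' : y < volume P := hy
    by_cases hy0 : y = 0
    · simp [hy0]
    have hyt : y ≠ ∞ := (hy'.trans_le le_top).ne
    have := key y.toReal (ENNReal.toReal_pos hy0 hyt) (by rwa [ENNReal.ofReal_toReal hyt])
    rw [ENNReal.ofReal_toReal hyt] at this
    exact this
  have hclosed : IsClosed {y : ℝ≥0∞ | y ^ (m + 1) ≤
      (m + 1) * ∫⁻ t in P, ENNReal.ofReal (t ^ m)} := isClosed_le hcont continuous_const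
  exact closure_minimal hsub hclosed hcl

/-- The positive part of the difference set of a set of reals that is bounded below. -/
theorem diff_pos {B Q : Set ℝ} (hbdd : BddBelow B)
    (hQ : ∀ x ∈ B, ∀ y ∈ B, x < y → y - x ∈ Q) : volume B ≤ volume Q := by
  by_cases hne : B.Nonempty
  · apply ENNReal.le_of_forall_pos_le_add
    intro ε hε _
    obtain ⟨b, hb, hbm⟩ := exists_lt_of_csInf_lt hne
      (lt_add_of_pos_right (sInf B) (show (0:ℝ) < ε by exact_mod_cast hε))
    have h1 : B ⊆ (B ∩ Ioi b) ∪ Icc (sInf B) b := by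
      intro x hx
      by_cases hxb : b < x
      · exact Or.inl ⟨hx, hxb⟩
      · exact Or.inr ⟨csInf_le hbdd hx, not_lt.1 hxb⟩
    have h2 : volume (B ∩ Ioi b) ≤ volume Q := by
      have h3 : B ∩ Ioi b ⊆ (fun x => x - b) ⁻¹' Q := by
        rintro x ⟨hx, hxb⟩
        exact hQ b hb x hx hxb
      calc volume (B ∩ Ioi b) ≤ volume ((fun x => x - b) ⁻¹' Q) := measure_mono h3
        _ = volume Q := by
          have := measure_preimage_add_right (volume : Measure ℝ) (-b) Q
          simpa only [sub_eq_add_neg] using this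
    calc volume B ≤ volume ((B ∩ Ioi b) ∪ Icc (sInf B) b) := measure_mono h1
      _ ≤ volume (B ∩ Ioi b) + volume (Icc (sInf B) b) := measure_union_le _ _
      _ ≤ volume Q + ε := by
        gcongr
        rw [Real.volume_Icc]
        calc ENNReal.ofReal (b - sInf B) ≤ ENNReal.ofReal (ε:ℝ) :=
              ENNReal.ofReal_le_ofReal (by linarith)
          _ = ε := by simp
  · rw [not_nonempty_iff_eq_empty.1 hne]; simp

end Pool.Agent.Q201.KM
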