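import Pool.Agent.Q201.KM.Levels

set_option autoImplicit false

open MeasureTheory Set Filter Topology ENNReal NNReal Metric
open scoped Pointwise

namespace Pool.Agent.Q201.KM

/-- The quasi-concave function showing that the power of the logarithm is sharp. -/
noncomputable def ff (m : ℕ) (δ : ℝ) (x : E (m + 1)) : ℝ := if ‖x‖ ≤ 1 then (max ‖x‖ δ)⁻¹ else 0

theorem ff_meas (m : ℕ) (δ : ℝ) : Measurable (ff m δ) := by
  apply Measurable.ite
  · exact measurableSet_le measurable_norm measurable_const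
  · exact (measurable_norm.max measurable_const).inv
  · exact measurable_const

theorem ff_nonneg (m : ℕ) {δ : ℝ} (hδ : 0 < δ) (x : E (m + 1)) : 0 ≤ ff m δ x := by
  unfold ff
  split_ifs
  · have : 0 < max ‖x‖ δ := lt_max_of_lt_right hδ
    positivity
  · exact le_rfl

theorem ff_convex (m : ℕ) {δ : ℝ} (hδ : 0 < δ) {s : ℝ} (hs : 0 < s) :
    Convex ℝ {x : E (m + 1) | s < |ff m δ x|} := by
  have h1 : {x : E (m + 1) | s < |ff m δ x|} =
      closedBall 0 1 ∩ ({x | ‖x‖ < s⁻¹} ∩ {_x | δ < s⁻¹}) := by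
    ext x
    simp only [mem_ofPred_eq, mem_inter_iff, mem_closedBall, dist_zero_right]
    rw [abs_of_nonneg (ff_nonneg m hδ x)]
    unfold ff
    have hm : 0 < max ‖x‖ δ := lt_max_of_lt_right hδ
    split_ifs with h
    · rw [lt_inv_comm₀ hs hm, max_lt_iff]
      tauto
    · constructor
      · intro h2; linarith
      · intro h2; exact absurd h2.1 h
  rw [h1]
  apply (convex_closedBall _ _).inter
  apply Convex.inter
  · have : {x : E (m + 1) | ‖x‖ < s⁻¹} = ball 0 s⁻¹ := by ext x; simp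
    rw [this]; exact convex_ball _ _
  · by_cases h : δ < s⁻¹
    · simp [h, convex_univ]
    · simp [h, convex_empty]

theorem sum_small (s : ℝ) (hs : 0 ≤ s) (J : ℕ) :
    s * ∑ j ∈ Finset.range J, (2:ℝ) ^ j * (if 2 ^ (j + 1) * s ≤ 1 then 1 else 0) ≤
      min 1 (2 ^ J * s) := by
  induction J with
  | zero => simp [hs]
  | succ J ih =>
    rw [Finset.sum_range_succ, mul_add]
    by_cases h : 2 ^ (J + 1) * s ≤ 1
    · rw [if_pos h, min_eq_right h]
      have := ih.trans (min_le_right _ _)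
      calc _ ≤ 2 ^ J * s + s * (2 ^ J * 1) := by gcongr
        _ = _ := by ring
    · rw [if_neg h, mul_zero, mul_zero, add_zero]
      refine ih.trans (min_le_min le_rfl ?_)
      gcongr
      · norm_num
      · omega

theorem sum_geo (s : ℝ) (J : ℕ) :
    ∑ j ∈ Finset.range J, (2:ℝ) ^ j * (if 2 ^ (j + 1) * s ≤ 1 then 1 else 0) ≤ 2 ^ J := by
  induction J with
  | zero => simp
  | succ J ih =>
    rw [Finset.sum_range_succ]
    calc _ ≤ (2:ℝ) ^ J + 2 ^ J * 1 := by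
          gcongr
          split_ifs <;> norm_num
      _ = _ := by ring

/-- Portions of a tube. -/
theorem portion (m : ℕ) (δ : ℝ) {e : E (m + 1)} (he : ‖e‖ = 1) (j : ℕ) :
    volume (tb δ e 0) ≤ 2 * 2 ^ j *
      volume (tb δ e 0 ∩ {y | 2 ^ (j + 1) * |(inner ℝ y e : ℝ)| ≤ 1}) := by
  have hee : (inner ℝ e e : ℝ) = 1 := by rw [real_inner_self_eq_norm_sq, he]; norm_num
  set T := tb δ e 0 with hT
  set S := T ∩ {y | 2 ^ (j + 1) * |(inner ℝ y e : ℝ)| ≤ 1} with hS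
  have hpow : (0:ℝ) < 2 ^ j := by positivity
  set ck : ℕ → ℝ := fun k => -(1 / 2) + ((k:ℝ) + 1 / 2) / 2 ^ j with hck
  have hshift : ∀ (y : E (m + 1)) (t : ℝ), (inner ℝ (y + t • e) e : ℝ) = inner ℝ y e + t := by
    intro y t
    rw [inner_add_left, inner_smul_left, hee]
    simp
  have hsub : T ⊆ ⋃ k ∈ Finset.range (2 ^ j + 1), (fun y : E (m + 1) => y + (-(ck k)) • e) ⁻¹' S := by
    rintro y ⟨hy1, hy2⟩
    rw [sub_zero] at hy1 hy2
    set s : ℝ := inner ℝ y e with hs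
    rw [abs_le] at hy1
    have hs0 : 0 ≤ (s + 1 / 2) * 2 ^ j := by
      apply mul_nonneg _ hpow.le; linarith
    have hk1 := Nat.floor_le hs0
    have hk2 := Nat.lt_floor_add_one ((s + 1 / 2) * 2 ^ j)
    set k := ⌊(s + 1 / 2) * 2 ^ j⌋₊ with hk
    have hk3 : k < 2 ^ j + 1 := by
      have : (k:ℝ) < (2:ℝ) ^ j + 1 := by
        calc (k:ℝ) ≤ (s + 1 / 2) * 2 ^ j := hk1
          _ ≤ 1 * 2 ^ j := by gcongr; linarith
          _ < _ := by linarith
      exact_mod_cast this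
    simp only [mem_iUnion, Finset.mem_range, mem_preimage]
    have hc : |s + -(ck k)| ≤ 1 / 2 / 2 ^ j := by
      have h1 : s + -(ck k) = ((s + 1 / 2) * 2 ^ j - (k + 1 / 2)) / 2 ^ j := by
        rw [hck]; field_simp; ring
      rw [h1, abs_div, abs_of_pos hpow]
      gcongr
      rw [abs_le]
      constructor <;> linarith
    have hle1 : 1 / 2 / (2:ℝ) ^ j ≤ 1 / 2 := by
      apply div_le_self (by norm_num)
      exact one_le_pow₀ (by norm_num)
    refine ⟨k, hk3, ⟨?_, ?_⟩, ?_⟩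
    · rw [sub_zero, hshift, ← hs]
      exact hc.trans hle1
    · rw [sub_zero, hshift, ← hs]
      have : y + -(ck k) • e - (s + -(ck k)) • e = y - s • e := by rw [add_smul]; abel
      rw [this]; exact hy2
    · simp only [mem_ofPred_eq]
      rw [hshift, ← hs]
      calc 2 ^ (j + 1) * |s + -(ck k)| ≤ 2 ^ (j + 1) * (1 / 2 / 2 ^ j) := by gcongr
        _ = 1 := by rw [pow_succ]; field_simp
  calc volume T ≤ volume (⋃ k ∈ Finset.range (2 ^ j + 1),
        (fun y : E (m + 1) => y + (-(ck k)) • e) ⁻¹' S) := measure_mono hsub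
    _ ≤ ∑ k ∈ Finset.range (2 ^ j + 1), volume ((fun y : E (m + 1) => y + (-(ck k)) • e) ⁻¹' S) :=
        measure_biUnion_finset_le _ _
    _ = ∑ k ∈ Finset.range (2 ^ j + 1), volume S := by
        apply Finset.sum_congr rfl
        intro k _
        exact measure_preimage_add_right _ _ _
    _ = ((2:ℝ≥0∞) ^ j + 1) * volume S := by
        rw [Finset.sum_const, Finset.card_range, nsmul_eq_mul]; push_cast; rfl
    _ ≤ (2 * 2 ^ j) * volume S := by
        gcongr
        rw [two_mul]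
        gcongr
        exact one_le_pow₀ (by norm_num)

/-- Lower bound for the maximal function. -/
theorem km_lower (m : ℕ) {δ : ℝ} (hδ : 0 < δ) (hδ1 : δ ≤ 1 / 2) (J : ℕ) (hJ : 2 ^ J ≤ 1 / δ)
    {e : E (m + 1)} (he : ‖e‖ = 1) :
    (J : ℝ≥0∞) * 4⁻¹ ≤ km δ (fun y => ‖ff m δ y‖ₑ) e := by
  set T := tb δ e 0 with hT
  have hTm : MeasurableSet T := (tb_closed _ _ _).measurableSet
  have hT0 : volume T ≠ 0 := by
    obtain ⟨c, hc, hvol⟩ := Pool.Agent.H742R2.Kk.volume_tube m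
    have h1 := hvol δ e 0 hδ he
    have h2 : 0 < ENNReal.ofReal (c * δ ^ m) := by
      rw [ENNReal.ofReal_pos]; positivity
    exact (h2.trans_le h1).ne'
  have hTt : volume T ≠ ∞ := tb_volume_ne_top δ he 0
  set S : ℕ → Set (E (m + 1)) := fun j => {y | 2 ^ (j + 1) * |(inner ℝ y e : ℝ)| ≤ 1} with hS
  have hSm : ∀ j, MeasurableSet (S j) := by
    intro j
    exact (isClosed_le (by fun_prop) continuous_const).measurableSet
  have hpt : ∀ y ∈ T, ∑ j ∈ Finset.range J, (2:ℝ≥0∞)⁻¹ * 2 ^ j * (S j).indicator 1 y ≤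
      ‖ff m δ y‖ₑ := by
    rintro y ⟨hy1, hy2⟩
    rw [sub_zero] at hy1 hy2
    set s : ℝ := |(inner ℝ y e : ℝ)| with hs
    have hs0 : 0 ≤ s := abs_nonneg _
    have hnorm : ‖y‖ ≤ s + δ := by
      calc ‖y‖ = ‖(inner ℝ y e : ℝ) • e + (y - (inner ℝ y e : ℝ) • e)‖ := by congr 1; abel
        _ ≤ ‖(inner ℝ y e : ℝ) • e‖ + ‖y - (inner ℝ y e : ℝ) • e‖ := norm_add_le _ _
        _ ≤ s + δ := by rw [norm_smul, he, mul_one, Real.norm_eq_abs]; exact add_le_add le_rfl hy2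
    have hn1 : ‖y‖ ≤ 1 := by linarith
    have hff : (s + δ)⁻¹ ≤ ff m δ y := by
      unfold ff
      rw [if_pos hn1]
      have hm : 0 < max ‖y‖ δ := lt_max_of_lt_right hδ
      apply inv_anti₀ hm
      exact max_le hnorm (by linarith)
    set W : ℝ := ∑ j ∈ Finset.range J, (2:ℝ) ^ j * (if 2 ^ (j + 1) * s ≤ 1 then 1 else 0) with hW
    have h1 : s * W ≤ 1 := (sum_small s hs0 J).trans (min_le_left _ _)
    have h2 : δ * W ≤ 1 := by
      calc δ * W ≤ δ * 2 ^ J := by gcongr; exact sum_geo s J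
        _ ≤ δ * (1 / δ) := by gcongr
        _ = 1 := by field_simp
    have h3 : 2⁻¹ * W ≤ (s + δ)⁻¹ := by
      rw [← one_div (s + δ), le_div_iff₀ (by positivity)]
      linarith [show 2⁻¹ * W * (s + δ) = 2⁻¹ * (s * W + δ * W) by ring]
    have h4 : ∑ j ∈ Finset.range J, (2:ℝ≥0∞)⁻¹ * 2 ^ j * (S j).indicator 1 y =
        ENNReal.ofReal (2⁻¹ * W) := by
      rw [ENNReal.ofReal_mul (by norm_num), hW, ENNReal.ofReal_sum_of_nonneg, Finset.mul_sum]
      · apply Finset.sum_congr rfl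
        intro j _
        rw [mul_assoc]
        congr 1
        · rw [ENNReal.ofReal_inv_of_pos (by norm_num)]; simp
        · by_cases h : y ∈ S j
          · rw [indicator_of_mem h]
            have h' : 2 ^ (j + 1) * s ≤ 1 := h
            rw [if_pos h', mul_one, ENNReal.ofReal_pow (by norm_num)]
            simp
          · rw [indicator_of_notMem h]
            have h' : ¬ (2 ^ (j + 1) * s ≤ 1) := h
            rw [if_neg h']
            simp
      · intro j _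
        split_ifs <;> positivity
    rw [h4, Real.enorm_eq_ofReal (ff_nonneg m hδ y)]
    exact ENNReal.ofReal_le_ofReal (h3.trans hff)
  have hint : (J : ℝ≥0∞) * 4⁻¹ * volume T ≤ ∫⁻ y in T, ‖ff m δ y‖ₑ := by
    calc (J : ℝ≥0∞) * 4⁻¹ * volume T = ∑ j ∈ Finset.range J, 4⁻¹ * volume T := by
          rw [Finset.sum_const, Finset.card_range, nsmul_eq_mul, mul_assoc]
      _ ≤ ∑ j ∈ Finset.range J, (2:ℝ≥0∞)⁻¹ * 2 ^ j * volume (T ∩ S j) := by
          apply Finset.sum_le_sum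
          intro j _
          have h1 := portion m δ he j
          have e4 : (4:ℝ≥0∞)⁻¹ = 2⁻¹ * 2⁻¹ := by
            rw [← ENNReal.mul_inv (Or.inl (by norm_num)) (Or.inl (by norm_num))]; norm_num
          calc 4⁻¹ * volume T ≤ 4⁻¹ * (2 * 2 ^ j * volume (T ∩ S j)) := by gcongr
            _ = (2⁻¹ * 2) * (2⁻¹ * 2 ^ j * volume (T ∩ S j)) := by rw [e4]; ring
            _ = _ := by rw [ENNReal.inv_mul_cancel (by norm_num) (by norm_num), one_mul]
      _ = ∫⁻ y in T, ∑ j ∈ Finset.range J, (2:ℝ≥0∞)⁻¹ * 2 ^ j * (S j).indicator 1 y := by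
          rw [lintegral_finsetSum]
          · apply Finset.sum_congr rfl
            intro j _
            rw [lintegral_const_mul _ (measurable_one.indicator (hSm j)),
              lintegral_indicator_one (hSm j), Measure.restrict_apply (hSm j), inter_comm]
          · intro j _
            exact (measurable_one.indicator (hSm j)).const_mul _
      _ ≤ _ := setLIntegral_mono' hTm hpt
  calc (J : ℝ≥0∞) * 4⁻¹ = (volume T)⁻¹ * ((J : ℝ≥0∞) * 4⁻¹ * volume T) := by
        rw [mul_comm ((J : ℝ≥0∞) * 4⁻¹), ← mul_assoc, ENNReal.inv_mul_cancel hT0 hTt, one_mul]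
    _ ≤ (volume T)⁻¹ * ∫⁻ y in T, ‖ff m δ y‖ₑ := by gcongr
    _ ≤ _ := le_iSup (fun a => (volume (tb δ e a))⁻¹ * ∫⁻ y in tb δ e a, ‖ff m δ y‖ₑ) 0

theorem pt_upper (m : ℕ) (r : ℝ) (J : ℕ) :
    (min r⁻¹ (2 ^ (J + 1))) ^ (m + 1) ≤ ∑ j ∈ Finset.range (J + 1),
      ((2:ℝ) ^ (j + 1)) ^ (m + 1) * (if r ≤ (2 ^ j)⁻¹ then 1 else 0) ∨ r ≤ 0 ∨ 1 < r := by
  by_cases h0 : r ≤ 0
  · exact Or.inr (Or.inl h0)
  by_cases h1 : 1 < r
  · exact Or.inr (Or.inr h1)
  rw [not_le] at h0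
  rw [not_lt] at h1
  left
  induction J with
  | zero =>
    simp only [zero_add, pow_one, Finset.range_one, Finset.sum_singleton, pow_zero, inv_one]
    rw [if_pos h1, mul_one]
    gcongr
    exact min_le_right _ _
  | succ J ih =>
    rw [Finset.sum_range_succ]
    have hnn : ∀ j, 0 ≤ ((2:ℝ) ^ (j + 1)) ^ (m + 1) * (if r ≤ (2 ^ j)⁻¹ then (1:ℝ) else 0) := by
      intro j; split_ifs <;> positivity
    by_cases h : r ≤ (2 ^ (J + 1))⁻¹
    · rw [if_pos h, mul_one]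
      calc (min r⁻¹ (2 ^ (J + 1 + 1))) ^ (m + 1) ≤ (2 ^ (J + 1 + 1)) ^ (m + 1) := by
            gcongr
            exact min_le_right _ _
        _ ≤ _ := le_add_of_nonneg_left (Finset.sum_nonneg fun j _ => hnn j)
    · rw [if_neg h, mul_zero, add_zero]
      refine le_trans ?_ ih
      have h2 : r⁻¹ ≤ 2 ^ (J + 1) := by
        rw [not_le] at h
        rw [inv_le_comm₀ h0 (by positivity)]
        exact h.le
      have h3 : 0 < r⁻¹ := by positivity
      exact pow_le_pow_left₀ (le_min h3.le (by positivity))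
        (le_min (min_le_left _ _) ((min_le_left _ _).trans h2)) _

/-- Upper bound for the norm. -/
theorem norm_upper (m : ℕ) {δ : ℝ} (hδ : 0 < δ) (hδ1 : δ ≤ 1) (J : ℕ) (hJ : 1 / δ ≤ 2 ^ (J + 1)) :
    ∫⁻ y, ‖ff m δ y‖ₑ ^ (m + 1) ≤
      ((J : ℝ≥0∞) + 1) * 2 ^ (m + 1) * volume (ball (0 : E (m + 1)) 1) := by
  have hpt : ∀ y : E (m + 1), ‖ff m δ y‖ₑ ^ (m + 1) ≤ ∑ j ∈ Finset.range (J + 1),
      ENNReal.ofReal ((2 ^ (j + 1)) ^ (m + 1)) * (closedBall (0 : E (m + 1)) (2 ^ j)⁻¹).indicator 1 y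
      := by
    intro y
    rw [Real.enorm_eq_ofReal (ff_nonneg m hδ y), ← ENNReal.ofReal_pow (ff_nonneg m hδ y)]
    unfold ff
    by_cases h : ‖y‖ ≤ 1
    swap
    · rw [if_neg h]; simp
    rw [if_pos h]
    set r := max ‖y‖ δ with hr
    have hr0 : 0 < r := lt_max_of_lt_right hδ
    have hr1 : r ≤ 1 := max_le h hδ1
    have h1 : r⁻¹ ≤ 2 ^ (J + 1) := by
      calc r⁻¹ ≤ δ⁻¹ := inv_anti₀ hδ (le_max_right _ _)
        _ ≤ _ := by rw [← one_div]; exact hJ
    have h2 := pt_upper m r J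
    rcases h2 with h2 | h2 | h2
    · rw [min_eq_left h1] at h2
      calc ENNReal.ofReal (r⁻¹ ^ (m + 1)) ≤ ENNReal.ofReal (∑ j ∈ Finset.range (J + 1),
            ((2:ℝ) ^ (j + 1)) ^ (m + 1) * (if r ≤ (2 ^ j)⁻¹ then 1 else 0)) :=
            ENNReal.ofReal_le_ofReal h2
        _ = ∑ j ∈ Finset.range (J + 1), ENNReal.ofReal
            (((2:ℝ) ^ (j + 1)) ^ (m + 1) * (if r ≤ (2 ^ j)⁻¹ then 1 else 0)) := by
            rw [ENNReal.ofReal_sum_of_nonneg]
            intro j _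
            split_ifs <;> positivity
        _ ≤ _ := by
            apply Finset.sum_le_sum
            intro j _
            by_cases h3 : r ≤ (2 ^ j)⁻¹
            · have : y ∈ closedBall (0 : E (m + 1)) (2 ^ j)⁻¹ := by
                rw [mem_closedBall, dist_zero_right]
                exact (le_max_left _ _).trans h3
              rw [if_pos h3, indicator_of_mem this]
              simp
            · rw [if_neg h3]; simp
    · exact absurd h2 (not_le.2 hr0)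
    · exact absurd h2 (not_lt.2 hr1)
  calc ∫⁻ y, ‖ff m δ y‖ₑ ^ (m + 1) ≤ ∫⁻ y, ∑ j ∈ Finset.range (J + 1),
      ENNReal.ofReal ((2 ^ (j + 1)) ^ (m + 1)) *
        (closedBall (0 : E (m + 1)) (2 ^ j)⁻¹).indicator 1 y := lintegral_mono hpt
    _ = ∑ j ∈ Finset.range (J + 1), ENNReal.ofReal ((2 ^ (j + 1)) ^ (m + 1)) *
        volume (closedBall (0 : E (m + 1)) (2 ^ j)⁻¹) := by
        rw [lintegral_finsetSum]
        · apply Finset.sum_congr rfl
          intro j _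
          rw [lintegral_const_mul _ (measurable_one.indicator measurableSet_closedBall),
            lintegral_indicator_one measurableSet_closedBall]
        · intro j _
          exact (measurable_one.indicator measurableSet_closedBall).const_mul _
    _ = ∑ j ∈ Finset.range (J + 1), 2 ^ (m + 1) * volume (ball (0 : E (m + 1)) 1) := by
        apply Finset.sum_congr rfl
        intro j _
        rw [Measure.addHaar_closedBall _ _ (by positivity), ← mul_assoc,
          ← ENNReal.ofReal_mul (by positivity)]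
        congr 1
        have : ((2:ℝ) ^ (j + 1)) ^ (m + 1) * ((2 ^ j)⁻¹) ^ Module.finrank ℝ (E (m + 1)) =
            2 ^ (m + 1) := by
          rw [finrank_euclideanSpace, Fintype.card_fin, ← mul_pow]
          congr 1
          rw [pow_succ]; field_simp
        rw [this, ENNReal.ofReal_pow (by norm_num)]
        norm_num
    _ = _ := by
        rw [Finset.sum_const, Finset.card_range, nsmul_eq_mul]; push_cast; ring

/-- The power `m = n - 1` of the logarithm is sharp, already for quasi-concave functions. -/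
theorem sharp (m : ℕ) {δ : ℝ} (hδ : 0 < δ) (hδ1 : δ ≤ 1 / 2) :
    ENNReal.ofReal ((16 ^ (m + 1))⁻¹ * (Real.log (1 / δ)) ^ m) * ∫⁻ y, ‖ff m δ y‖ₑ ^ (m + 1) ≤
      ∫⁻ e : sphere (0 : E (m + 1)) 1, km δ (fun y => ‖ff m δ y‖ₑ) e ^ (m + 1) ∂(sg m) := by
  have h2 : (1:ℝ) < 2 := by norm_num
  have hd2 : 2 ≤ 1 / δ := by rw [le_div_iff₀ hδ]; linarith
  obtain ⟨J, hJ1, hJ2⟩ := exists_nat_pow_near (x := 1 / δ) (y := (2:ℝ)) (by linarith) h2
  have hJ0 : 1 ≤ J := by
    by_contra h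
    have : J = 0 := by omega
    rw [this] at hJ2
    norm_num at hJ2
    rw [one_div] at hd2
    linarith
  have hlog0 : 0 ≤ Real.log (1 / δ) := Real.log_nonneg (by linarith)
  have hlog : Real.log (1 / δ) ≤ 2 * J := by
    have h3 : Real.log (1 / δ) ≤ Real.log (2 ^ (J + 1)) := Real.log_le_log (by positivity) hJ2.le
    rw [Real.log_pow] at h3
    have h4 : Real.log 2 ≤ 1 := by
      have := Real.log_two_lt_d9; linarith
    have h5 : (1:ℝ) ≤ J := by exact_mod_cast hJ0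
    calc Real.log (1 / δ) ≤ ((J + 1 : ℕ) : ℝ) * Real.log 2 := h3
      _ ≤ ((J + 1 : ℕ) : ℝ) * 1 := by gcongr
      _ ≤ 2 * J := by push_cast; linarith
  have hup := norm_upper m hδ (by linarith) J hJ2.le
  have hlow : ∀ e : sphere (0 : E (m + 1)) 1, ((J : ℝ≥0∞) * 4⁻¹) ^ (m + 1) ≤
      km δ (fun y => ‖ff m δ y‖ₑ) e ^ (m + 1) := by
    intro e
    gcongr
    exact km_lower m hδ hδ1 J hJ1 (by simp)
  set V := volume (ball (0 : E (m + 1)) 1) with hV
  have hsg : (sg m) univ = ((m:ℝ≥0∞) + 1) * V := by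
    rw [Measure.toSphere_apply_univ, finrank_euclideanSpace, Fintype.card_fin]
    push_cast; rfl
  have hJ1' : (1:ℝ≥0∞) ≤ J := by exact_mod_cast hJ0
  have e16 : ENNReal.ofReal ((16 ^ (m + 1))⁻¹ * (Real.log (1 / δ)) ^ m) ≤
      (16 ^ (m + 1))⁻¹ * (2 * (J:ℝ≥0∞)) ^ m := by
    rw [ENNReal.ofReal_mul (by positivity), ENNReal.ofReal_inv_of_pos (by positivity),
      ENNReal.ofReal_pow (by norm_num), ENNReal.ofReal_pow hlog0]
    have : ENNReal.ofReal (Real.log (1 / δ)) ≤ 2 * (J:ℝ≥0∞) := by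
      calc ENNReal.ofReal (Real.log (1 / δ)) ≤ ENNReal.ofReal (2 * J) :=
            ENNReal.ofReal_le_ofReal hlog
        _ = _ := by rw [ENNReal.ofReal_mul (by norm_num)]; simp
    have e : ENNReal.ofReal 16 = 16 := by simp
    rw [e]
    gcongr
  have e44 : (4:ℝ≥0∞) ^ (m + 1) * 4⁻¹ ^ (m + 1) = 1 := by
    rw [← mul_pow, ENNReal.mul_inv_cancel (by norm_num) (by norm_num), one_pow]
  have e1616 : (16 ^ (m + 1) : ℝ≥0∞)⁻¹ * 4 ^ (m + 1) = 4⁻¹ ^ (m + 1) := by
    have h16 : (16:ℝ≥0∞) ^ (m + 1) = 4 ^ (m + 1) * 4 ^ (m + 1) := by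
      rw [← mul_pow]; norm_num
    have h4 : (4:ℝ≥0∞) ^ (m + 1) ≠ 0 := by positivity
    have h4' : (4:ℝ≥0∞) ^ (m + 1) ≠ ∞ := ENNReal.pow_ne_top (by norm_num)
    rw [h16, ENNReal.mul_inv (Or.inl h4) (Or.inl h4'), mul_assoc,
      ENNReal.inv_mul_cancel h4 h4', mul_one, ENNReal.inv_pow]
  calc ENNReal.ofReal ((16 ^ (m + 1))⁻¹ * (Real.log (1 / δ)) ^ m) * ∫⁻ y, ‖ff m δ y‖ₑ ^ (m + 1)
      ≤ ((16 ^ (m + 1))⁻¹ * (2 * (J:ℝ≥0∞)) ^ m) * (((J : ℝ≥0∞) + 1) * 2 ^ (m + 1) * V) := by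
        gcongr
    _ ≤ ((16 ^ (m + 1))⁻¹ * (2 * (J:ℝ≥0∞)) ^ m) * ((2 * (J : ℝ≥0∞)) * 2 ^ (m + 1) * V) := by
        gcongr
        rw [two_mul]
        gcongr
    _ = (16 ^ (m + 1))⁻¹ * 4 ^ (m + 1) * (J:ℝ≥0∞) ^ (m + 1) * V := by
        have : (4:ℝ≥0∞) ^ (m + 1) = 2 ^ (m + 1) * 2 ^ (m + 1) := by
          rw [← mul_pow]; norm_num
        rw [this]; ring
    _ = ((J : ℝ≥0∞) * 4⁻¹) ^ (m + 1) * V := by rw [e1616]; ring
    _ ≤ ((J : ℝ≥0∞) * 4⁻¹) ^ (m + 1) * (((m:ℝ≥0∞) + 1) * V) := by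
        gcongr
        calc V = 1 * V := (one_mul _).symm
          _ ≤ _ := by gcongr; exact le_add_left le_rfl
    _ = ∫⁻ e : sphere (0 : E (m + 1)) 1, ((J : ℝ≥0∞) * 4⁻¹) ^ (m + 1) ∂(sg m) := by
        rw [lintegral_const, hsg]
    _ ≤ _ := lintegral_mono hlow

end Pool.Agent.Q201.KM
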