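import Pool.Agent.Q201.KM.OneD

set_option autoImplicit false

open MeasureTheory Set Filter Topology ENNReal NNReal Metric
open scoped Pointwise

namespace Pool.Agent.Q201.KM

abbrev E (n : ℕ) := EuclideanSpace ℝ (Fin n)

variable {n : ℕ}

/-- The tube of length one. -/
def tb (δ : ℝ) (e b : E n) : Set (E n) :=
  {y | |inner ℝ (y - b) e| ≤ 1 / 2 ∧ ‖(y - b) - (inner ℝ (y - b) e : ℝ) • e‖ ≤ δ}

theorem tb_closed (δ : ℝ) (e b : E n) : IsClosed (tb δ e b) := by
  have h1 : IsClosed {y : E n | |inner ℝ (y - b) e| ≤ 1 / 2} :=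
    isClosed_le (by fun_prop) continuous_const
  have h2 : IsClosed {y : E n | ‖(y - b) - (inner ℝ (y - b) e : ℝ) • e‖ ≤ δ} :=
    isClosed_le (by fun_prop) continuous_const
  exact h1.inter h2

theorem slab {B : Set (E n)} (hB : MeasurableSet B) {e : E n} (he : ‖e‖ = 1) {δ : ℝ} {b : E n}
    (hBT : B ⊆ tb δ e b) {lam : ℝ≥0∞} (h : ∀ y : E n, volume {t : ℝ | y + t • e ∈ B} ≤ lam) :
    volume B ≤ lam * volume (tb δ e b) := by
  have hee : (inner ℝ e e : ℝ) = 1 := by rw [real_inner_self_eq_norm_sq, he]; norm_num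
  set X : ℝ≥0∞ := lam * volume (tb δ e b) with hX
  have step : ∀ L : ℕ, (L : ℝ≥0∞) * volume B ≤ X * (L + 2) := by
    intro L
    set TL : Set (E n) := {y | (-(1 / 2) - (L:ℝ) ≤ inner ℝ (y - b) e ∧ inner ℝ (y - b) e ≤ 1 / 2) ∧
      ‖(y - b) - (inner ℝ (y - b) e : ℝ) • e‖ ≤ δ} with hTL
    have hTLm : MeasurableSet TL := by
      have h1 : IsClosed {y : E n | -(1 / 2) - (L:ℝ) ≤ inner ℝ (y - b) e} :=
        isClosed_le continuous_const (by fun_prop)
      have h2 : IsClosed {y : E n | inner ℝ (y - b) e ≤ (1 / 2 : ℝ)} :=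
        isClosed_le (by fun_prop) continuous_const
      have h3 : IsClosed {y : E n | ‖(y - b) - (inner ℝ (y - b) e : ℝ) • e‖ ≤ δ} :=
        isClosed_le (by fun_prop) continuous_const
      exact ((h1.inter h2).inter h3).measurableSet
    have hshift : ∀ (y : E n) (t : ℝ), (inner ℝ (y + t • e - b) e : ℝ) = inner ℝ (y - b) e + t := by
      intro y t
      have : y + t • e - b = (y - b) + t • e := by abel
      rw [this, inner_add_left, inner_smul_left, hee]
      simp
    have hshift2 : ∀ (y : E n) (t : ℝ),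
        (y + t • e - b) - (inner ℝ (y + t • e - b) e : ℝ) • e =
          (y - b) - (inner ℝ (y - b) e : ℝ) • e := by
      intro y t
      rw [hshift, add_smul]; abel
    have hcov : volume TL ≤ (L + 2) * volume (tb δ e b) := by
      have hsub : TL ⊆ ⋃ k ∈ Finset.range (L + 2), (fun y : E n => y + ((k:ℕ):ℝ) • e) ⁻¹' tb δ e b := by
        rintro y ⟨⟨hy1, hy2⟩, hy3⟩
        set s : ℝ := inner ℝ (y - b) e with hs
        have hs0 : 0 ≤ 1 / 2 - s := by linarith
        have hk1 : (⌊1 / 2 - s⌋₊ : ℝ) ≤ 1 / 2 - s := Nat.floor_le hs0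
        have hk2 : 1 / 2 - s < (⌊1 / 2 - s⌋₊ : ℝ) + 1 := Nat.lt_floor_add_one _
        have hk3 : ⌊1 / 2 - s⌋₊ < L + 2 := by
          have : (⌊1 / 2 - s⌋₊ : ℝ) < (L:ℝ) + 2 := by linarith
          exact_mod_cast this
        simp only [mem_iUnion, Finset.mem_range, mem_preimage]
        refine ⟨⌊1 / 2 - s⌋₊, hk3, ?_, ?_⟩
        · rw [hshift, ← hs, abs_le]
          constructor <;> linarith
        · rw [hshift2]; exact hy3
      calc volume TL ≤ volume (⋃ k ∈ Finset.range (L + 2),
            (fun y : E n => y + ((k:ℕ):ℝ) • e) ⁻¹' tb δ e b) := measure_mono hsub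
        _ ≤ ∑ k ∈ Finset.range (L + 2), volume ((fun y : E n => y + ((k:ℕ):ℝ) • e) ⁻¹' tb δ e b) :=
            measure_biUnion_finset_le _ _
        _ = ∑ k ∈ Finset.range (L + 2), volume (tb δ e b) := by
            apply Finset.sum_congr rfl
            intro k _
            exact measure_preimage_add_right _ _ _
        _ = (L + 2) * volume (tb δ e b) := by
            rw [Finset.sum_const, Finset.card_range, nsmul_eq_mul]; push_cast; rfl
    have hmeas : Measurable fun p : ℝ × E n => B.indicator (1 : E n → ℝ≥0∞) (p.2 + p.1 • e) := by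
      have h1 : Measurable fun p : ℝ × E n => p.2 + p.1 • e := by fun_prop
      exact (measurable_one.indicator hB).comp h1
    calc (L : ℝ≥0∞) * volume B = ∫⁻ t in Icc (0:ℝ) L, volume B := by
          rw [setLIntegral_const, Real.volume_Icc, mul_comm]
          simp
      _ = ∫⁻ t in Icc (0:ℝ) L, ∫⁻ y in TL, B.indicator (1 : E n → ℝ≥0∞) (y + t • e) := by
          apply setLIntegral_congr_fun measurableSet_Icc
          intro t ht
          simp only
          have h1 : volume B = ∫⁻ y, B.indicator (1 : E n → ℝ≥0∞) (y + t • e) := by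
            rw [lintegral_add_right_eq_self (fun y => B.indicator (1 : E n → ℝ≥0∞) y) (t • e),
              lintegral_indicator_one hB]
          rw [h1, ← lintegral_indicator hTLm]
          apply lintegral_congr
          intro y
          by_cases hy : y + t • e ∈ B
          · have hyT := hBT hy
            have : y ∈ TL := by
              obtain ⟨h2, h3⟩ := hyT
              rw [hshift, abs_le] at h2
              rw [hshift2] at h3
              refine ⟨⟨?_, ?_⟩, h3⟩
              · linarith [ht.2, h2.1]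
              · linarith [ht.1, h2.2]
            rw [indicator_of_mem this]
          · rw [indicator_of_notMem hy]
            by_cases hy2 : y ∈ TL
            · rw [indicator_of_mem hy2, indicator_of_notMem hy]
            · rw [indicator_of_notMem hy2]
      _ = ∫⁻ y in TL, ∫⁻ t in Icc (0:ℝ) L, B.indicator (1 : E n → ℝ≥0∞) (y + t • e) := by
          exact lintegral_lintegral_swap hmeas.aemeasurable
      _ ≤ ∫⁻ y in TL, lam := by
          apply lintegral_mono
          intro y
          calc ∫⁻ t in Icc (0:ℝ) L, B.indicator (1 : E n → ℝ≥0∞) (y + t • e)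
              ≤ ∫⁻ t, B.indicator (1 : E n → ℝ≥0∞) (y + t • e) := setLIntegral_le_lintegral _ _
            _ = ∫⁻ t, ({t : ℝ | y + t • e ∈ B}).indicator 1 t := by
              apply lintegral_congr
              intro t
              by_cases ht : y + t • e ∈ B
              · rw [indicator_of_mem ht, indicator_of_mem (show t ∈ {t : ℝ | y + t • e ∈ B} from ht)]
                rfl
              · rw [indicator_of_notMem ht,
                  indicator_of_notMem (show t ∉ {t : ℝ | y + t • e ∈ B} from ht)]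
            _ = volume {t : ℝ | y + t • e ∈ B} := by
              rw [lintegral_indicator_one]
              exact (show Measurable fun t : ℝ => y + t • e by fun_prop) hB
            _ ≤ lam := h y
      _ = lam * volume TL := by rw [setLIntegral_const]
      _ ≤ lam * ((L + 2) * volume (tb δ e b)) := by gcongr
      _ = X * (L + 2) := by rw [hX]; ring
  by_cases hXt : X = ∞
  · rw [hXt]; exact le_top
  have step2 : ∀ L : ℕ, volume B ≤ X * (1 + 2 * ((L:ℝ≥0∞) + 1)⁻¹) := by
    intro L
    have h1 := step (L + 1)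
    have h2 : ((L + 1 : ℕ) : ℝ≥0∞) ≠ 0 := by simp
    have h3 : ((L + 1 : ℕ) : ℝ≥0∞) ≠ ∞ := ENNReal.natCast_ne_top _
    calc volume B = ((L + 1 : ℕ) : ℝ≥0∞)⁻¹ * (((L + 1 : ℕ) : ℝ≥0∞) * volume B) := by
          rw [← mul_assoc, ENNReal.inv_mul_cancel h2 h3, one_mul]
      _ ≤ ((L + 1 : ℕ) : ℝ≥0∞)⁻¹ * (X * (((L + 1 : ℕ) : ℝ≥0∞) + 2)) := by gcongr
      _ = X * (((L + 1 : ℕ) : ℝ≥0∞)⁻¹ * ((L + 1 : ℕ) : ℝ≥0∞) + 2 * ((L + 1 : ℕ) : ℝ≥0∞)⁻¹) := by ring
      _ = X * (1 + 2 * ((L:ℝ≥0∞) + 1)⁻¹) := by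
          rw [ENNReal.inv_mul_cancel h2 h3]; push_cast; rfl
  have hlim : Tendsto (fun L : ℕ => X * (1 + 2 * ((L:ℝ≥0∞) + 1)⁻¹)) atTop (𝓝 (X * (1 + 2 * 0))) := by
    have h0 : Tendsto (fun L : ℕ => ((L:ℝ≥0∞) + 1)⁻¹) atTop (𝓝 0) := by
      have := (ENNReal.tendsto_inv_nat_nhds_zero).comp (tendsto_add_atTop_nat 1)
      refine this.congr ?_
      intro L
      simp
    apply ENNReal.Tendsto.const_mul _ (Or.inr hXt)
    apply Tendsto.add tendsto_const_nhds
    exact ENNReal.Tendsto.const_mul h0 (Or.inr (by norm_num))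
  have := ge_of_tendsto' hlim step2
  simpa using this

/-- The part of a tube covered by `A` is controlled by the differences of `A` in the direction of
the tube. -/
theorem avg_le {A D : Set (E n)} (hA : NullMeasurableSet A) (hD : ∀ x ∈ A, ∀ y ∈ A, x - y ∈ D)
    {e : E n} (he : ‖e‖ = 1) (δ : ℝ) (b : E n) :
    volume (tb δ e b ∩ A) ≤ volume {t : ℝ | 0 < t ∧ t • e ∈ D} * volume (tb δ e b) := by
  have hee : (inner ℝ e e : ℝ) = 1 := by rw [real_inner_self_eq_norm_sq, he]; norm_num
  obtain ⟨A', hA'A, hA'm, hA'e⟩ := hA.exists_measurable_subset_ae_eq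
  have h1 : volume (tb δ e b ∩ A) = volume (tb δ e b ∩ A') :=
    measure_congr ((ae_eq_refl _).inter hA'e.symm)
  rw [h1]
  apply slab ((tb_closed δ e b).measurableSet.inter hA'm) he inter_subset_left
  intro y
  apply diff_pos
  · refine ⟨-(1 / 2) - inner ℝ (y - b) e, ?_⟩
    rintro t ⟨⟨ht, _⟩, _⟩
    have : y + t • e - b = (y - b) + t • e := by abel
    rw [this, inner_add_left, inner_smul_left, hee, abs_le] at ht
    have := ht.1
    simp at this
    linarith
  · rintro s ⟨_, hs⟩ t ⟨_, ht⟩ hst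
    refine ⟨by linarith, ?_⟩
    have h2 := hD _ (hA'A ht) _ (hA'A hs)
    have h3 : y + t • e - (y + s • e) = (t - s) • e := by rw [sub_smul]; abel
    rwa [h3] at h2

/-- Polar coordinates. -/
theorem polar (m : ℕ) {D : Set (E (m + 1))} (hD : MeasurableSet D) :
    ∫⁻ e : sphere (0 : E (m + 1)) 1, (∫⁻ t in {t : ℝ | 0 < t ∧ t • (e : E (m + 1)) ∈ D},
      ENNReal.ofReal (t ^ m)) ∂(volume : Measure (E (m + 1))).toSphere ≤ volume D := by
  set μ : Measure (E (m + 1)) := volume with hμ
  set S : Set (sphere (0 : E (m + 1)) 1 × Ioi (0 : ℝ)) :=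
    {p | (p.2 : ℝ) • (p.1 : E (m + 1)) ∈ D} with hS
  have hSm : MeasurableSet S := by
    have : Measurable fun p : sphere (0 : E (m + 1)) 1 × Ioi (0 : ℝ) =>
      (p.2 : ℝ) • (p.1 : E (m + 1)) := by fun_prop
    exact this hD
  have hdim : Module.finrank ℝ (E (m + 1)) - 1 = m := by simp
  have h1 : (μ.toSphere.prod (Measure.volumeIoiPow m)) S =
      ∫⁻ e : sphere (0 : E (m + 1)) 1, (∫⁻ t in {t : ℝ | 0 < t ∧ t • (e : E (m + 1)) ∈ D},
        ENNReal.ofReal (t ^ m)) ∂μ.toSphere := by
    rw [Measure.prod_apply hSm]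
    apply lintegral_congr
    intro e
    have hm2 : MeasurableSet (Prod.mk e ⁻¹' S) := measurable_prodMk_left hSm
    rw [Measure.volumeIoiPow, withDensity_apply _ hm2,
      setLIntegral_subtype measurableSet_Ioi _ fun a : ℝ ↦ ENNReal.ofReal (a ^ m)]
    congr 2
    ext t
    simp only [mem_image, mem_preimage, hS, mem_ofPred_eq, Subtype.exists, mem_Ioi,
      exists_and_right, exists_eq_right]
    constructor
    · rintro ⟨h1, h2⟩; exact ⟨h1, h2⟩
    · rintro ⟨h1, h2⟩; exact ⟨h1, h2⟩
  rw [← h1]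
  have h2 := μ.measurePreserving_homeomorphUnitSphereProd.measure_preimage hSm.nullMeasurableSet
  rw [hdim] at h2
  rw [← h2, comap_subtype_coe_apply (measurableSet_singleton _).compl]
  apply measure_mono
  rintro x ⟨y, hy, rfl⟩
  simp only [mem_preimage, hS, mem_ofPred_eq, homeomorphUnitSphereProd_apply_snd_coe,
    homeomorphUnitSphereProd_apply_fst_coe] at hy
  have hne : ‖(y : E (m + 1))‖ ≠ 0 := by
    rw [norm_ne_zero_iff]; exact y.2
  rwa [smul_smul, mul_inv_cancel₀ hne, one_smul] at hy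

theorem meas_ray (m : ℕ) {D : Set (E (m + 1))} (hD : MeasurableSet D) :
    Measurable fun e : sphere (0 : E (m + 1)) 1 =>
      volume {t : ℝ | 0 < t ∧ t • (e : E (m + 1)) ∈ D} := by
  have h1 : MeasurableSet {p : sphere (0 : E (m + 1)) 1 × ℝ | 0 < p.2 ∧
      p.2 • (p.1 : E (m + 1)) ∈ D} := by
    have h2 : Measurable fun p : sphere (0 : E (m + 1)) 1 × ℝ => p.2 • (p.1 : E (m + 1)) := by
      fun_prop
    exact (measurableSet_lt measurable_const measurable_snd).inter (h2 hD)
  exact measurable_measure_prodMk_left h1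

theorem ray_bound (m : ℕ) {D : Set (E (m + 1))} (hD : MeasurableSet D) :
    ∫⁻ e : sphere (0 : E (m + 1)) 1, (volume {t : ℝ | 0 < t ∧ t • (e : E (m + 1)) ∈ D}) ^ (m + 1)
      ∂(volume : Measure (E (m + 1))).toSphere ≤ (m + 1) * volume D := by
  calc ∫⁻ e : sphere (0 : E (m + 1)) 1,
        (volume {t : ℝ | 0 < t ∧ t • (e : E (m + 1)) ∈ D}) ^ (m + 1)
        ∂(volume : Measure (E (m + 1))).toSphere
      ≤ ∫⁻ e : sphere (0 : E (m + 1)) 1,
        (m + 1) * (∫⁻ t in {t : ℝ | 0 < t ∧ t • (e : E (m + 1)) ∈ D},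
        ENNReal.ofReal (t ^ m)) ∂(volume : Measure (E (m + 1))).toSphere := by
        apply lintegral_mono
        intro e
        apply bathtub
        · have h2 : Measurable fun t : ℝ => t • (e : E (m + 1)) := by fun_prop
          exact (measurableSet_lt measurable_const measurable_id).inter (h2 hD)
        · intro t ht; exact ht.1
    _ = (m + 1) * ∫⁻ e : sphere (0 : E (m + 1)) 1,
        (∫⁻ t in {t : ℝ | 0 < t ∧ t • (e : E (m + 1)) ∈ D},
        ENNReal.ofReal (t ^ m)) ∂(volume : Measure (E (m + 1))).toSphere := by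
        rw [lintegral_const_mul']
        exact ENNReal.add_ne_top.2 ⟨ENNReal.natCast_ne_top _, ENNReal.one_ne_top⟩
    _ ≤ _ := by gcongr; exact polar m hD

end Pool.Agent.Q201.KM
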