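import Pool.Agent.Q201.KM.Levels

set_option autoImplicit false

open MeasureTheory Set Filter Topology ENNReal NNReal Metric
open scoped Pointwise

namespace Pool.Agent.Q201.KM

/-- Summation of the levels, real exponents. -/
theorem level_sum_rpow {p : ℝ} (hp : 1 ≤ p) (A x : ℝ≥0∞) (J : ℕ) :
    ∑ j ∈ Finset.range J, (A * 2 ^ j) ^ p * (if A * 2 ^ j < x then 1 else 0) ≤
      (min (2 * x) (A * 2 ^ J)) ^ p := by
  have hp0 : 0 ≤ p := by linarith
  induction J with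
  | zero => simp
  | succ J ih =>
    rw [Finset.sum_range_succ]
    by_cases h : A * 2 ^ J < x
    · rw [if_pos h, mul_one]
      have h1 : min (2 * x) (A * 2 ^ (J + 1)) = A * 2 ^ (J + 1) := by
        apply min_eq_right
        calc A * 2 ^ (J + 1) = 2 * (A * 2 ^ J) := by ring
          _ ≤ 2 * x := by gcongr
      rw [h1]
      calc _ ≤ (A * 2 ^ J) ^ p + (A * 2 ^ J) ^ p := by
            gcongr
            refine ih.trans ?_
            gcongr
            exact min_le_right _ _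
        _ = 2 * (A * 2 ^ J) ^ p := by ring
        _ ≤ 2 ^ p * (A * 2 ^ J) ^ p := by
            gcongr
            calc (2:ℝ≥0∞) = 2 ^ (1:ℝ) := by simp
              _ ≤ 2 ^ p := ENNReal.rpow_le_rpow_of_exponent_le (by norm_num) hp
        _ = (A * 2 ^ (J + 1)) ^ p := by
            rw [← ENNReal.mul_rpow_of_nonneg _ _ hp0]; congr 1; ring
    · rw [if_neg h, mul_zero, add_zero]
      refine ih.trans ?_
      gcongr ?_ ^ _
      apply min_le_min le_rfl
      gcongr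
      · norm_num
      · omega

/-- The pointwise decomposition with all the levels above the level `J`. -/
theorem level_tsum (A x : ℝ≥0∞) (hA : A ≠ 0) (hx : x ≠ ∞) (J : ℕ) :
    x ≤ A * 2 ^ J + ∑' k : ℕ, A * 2 ^ (J + k + 1) * (if A * 2 ^ (J + k) < x then 1 else 0) := by
  by_cases h0 : A * 2 ^ J < x
  swap
  · exact (not_lt.1 h0).trans (le_add_right le_rfl)
  have hex : ∃ k : ℕ, ¬ (A * 2 ^ (J + k) < x) := by
    by_contra hcon
    push Not at hcon
    have hAt : A ≠ ∞ := by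
      intro h
      have := hcon 0
      rw [h, ENNReal.top_mul (by positivity)] at this
      exact not_top_lt this
    have h1 : Tendsto (fun k : ℕ => A * 2 ^ k) atTop (𝓝 ∞) := by
      have : Tendsto (fun k : ℕ => (2:ℝ≥0∞) ^ k) atTop (𝓝 ∞) :=
        ENNReal.tendsto_pow_atTop_nhds_top_iff.2 (by norm_num)
      have h2 := ENNReal.Tendsto.const_mul (a := A) this (Or.inl (by simp))
      rwa [ENNReal.mul_top hA] at h2
    have h2 : Tendsto (fun k : ℕ => A * 2 ^ (J + k)) atTop (𝓝 ∞) := by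
      have := h1.comp (tendsto_add_atTop_nat J)
      refine this.congr ?_
      intro k
      simp only [Function.comp]
      rw [add_comm]
    have h3 := le_of_tendsto' h2 (fun k => (hcon k).le)
    exact hx (top_le_iff.1 h3)
  classical
  set k0 := Nat.find hex with hk0
  have h1 : ¬ (A * 2 ^ (J + k0) < x) := Nat.find_spec hex
  have h2 : k0 ≠ 0 := by
    intro h
    rw [h] at h1
    exact h1 h0
  obtain ⟨k1, hk1⟩ := Nat.exists_eq_succ_of_ne_zero h2
  have h3 : A * 2 ^ (J + k1) < x := by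
    by_contra h
    have := Nat.find_min hex (m := k1) (by omega)
    exact this h
  calc x ≤ A * 2 ^ (J + k1 + 1) * (if A * 2 ^ (J + k1) < x then 1 else 0) := by
        rw [if_pos h3, mul_one]
        have : J + k0 = J + k1 + 1 := by omega
        rw [← this]
        exact not_lt.1 h1
    _ ≤ ∑' k : ℕ, A * 2 ^ (J + k + 1) * (if A * 2 ^ (J + k) < x then 1 else 0) :=
        ENNReal.le_tsum k1
    _ ≤ _ := le_add_left le_rfl

/-- The pointwise estimate: `X` is bounded by the base level and by the sum of the levels. -/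
theorem core_pt {p q : ℝ} (hq : 0 < q) (hpq : q < p) (A X G : ℝ≥0∞) (hA : A ≠ 0) (hAt : A ≠ ∞)
    (M : ℕ → ℝ≥0∞) (hM : ∀ j : ℕ, (A * 2 ^ j) ^ p * M j ^ q ≤ G)
    (hX : ∀ J : ℕ, X ≤ A * 2 ^ J + ∑' k : ℕ, A * 2 ^ (J + k + 1) * M (J + k)) :
    X ≤ (1 + 2 * (1 - 2 ^ (-(p / q - 1)))⁻¹ * 2 ^ (p / q - 1)) * max A (G ^ p⁻¹) := by
  have hp : 0 < p := hq.trans hpq
  set θ : ℝ := p / q - 1 with hθ
  have hθ0 : 0 < θ := by
    rw [hθ, sub_pos, one_lt_div hq]; exact hpq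
  set Dn : ℝ≥0∞ := (1 - 2 ^ (-θ))⁻¹ with hDn
  have hlev : ∀ j : ℕ, A * 2 ^ j ≠ 0 ∧ A * 2 ^ j ≠ ∞ := fun j =>
    ⟨mul_ne_zero hA (by positivity), ENNReal.mul_ne_top hAt (ENNReal.pow_ne_top (by norm_num))⟩
  -- one term
  have hterm : ∀ j : ℕ, A * 2 ^ j * M j ≤ (A * 2 ^ j) ^ (-θ) * G ^ q⁻¹ := by
    intro j
    set a := A * 2 ^ j with ha
    have h1 : a ^ (p / q) * M j ≤ G ^ q⁻¹ := by
      calc a ^ (p / q) * M j = (a ^ p * M j ^ q) ^ q⁻¹ := by
            rw [ENNReal.mul_rpow_of_nonneg (a ^ p) (M j ^ q) (by positivity : (0:ℝ) ≤ q⁻¹),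
              ← ENNReal.rpow_mul, ← ENNReal.rpow_mul, mul_inv_cancel₀ hq.ne', ENNReal.rpow_one,
              div_eq_mul_inv]
        _ ≤ _ := by gcongr; exact hM j
    calc a * M j = a ^ (-θ) * (a ^ (p / q) * M j) := by
          rw [← mul_assoc, ← ENNReal.rpow_add _ _ (hlev j).1 (hlev j).2]
          congr 1
          have : -θ + p / q = 1 := by rw [hθ]; ring
          rw [this, ENNReal.rpow_one]
      _ ≤ _ := by gcongr
  have hsum : ∀ J : ℕ, X ≤ A * 2 ^ J + 2 * Dn * ((A * 2 ^ J) ^ (-θ) * G ^ q⁻¹) := by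
    intro J
    refine (hX J).trans ?_
    gcongr
    calc ∑' k : ℕ, A * 2 ^ (J + k + 1) * M (J + k)
        ≤ ∑' k : ℕ, 2 * ((A * 2 ^ J) ^ (-θ) * G ^ q⁻¹) * (2 ^ (-θ)) ^ k := by
          apply ENNReal.tsum_le_tsum
          intro k
          calc A * 2 ^ (J + k + 1) * M (J + k) = 2 * (A * 2 ^ (J + k) * M (J + k)) := by ring
            _ ≤ 2 * ((A * 2 ^ (J + k)) ^ (-θ) * G ^ q⁻¹) := mul_le_mul' le_rfl (hterm _)
            _ = _ := by
              have e1 : (A * 2 ^ (J + k)) ^ (-θ) = (A * 2 ^ J) ^ (-θ) * (2 ^ (-θ)) ^ k := by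
                have e2 : A * 2 ^ (J + k) = (A * 2 ^ J) * 2 ^ k := by ring
                rw [e2, ENNReal.mul_rpow_of_ne_top (hlev J).2 (ENNReal.pow_ne_top (by norm_num))]
                congr 1
                rw [← ENNReal.rpow_natCast, ← ENNReal.rpow_natCast, ← ENNReal.rpow_mul,
                  ← ENNReal.rpow_mul, mul_comm]
              rw [e1]; ring
      _ = 2 * Dn * ((A * 2 ^ J) ^ (-θ) * G ^ q⁻¹) := by
          rw [ENNReal.tsum_mul_left, ENNReal.tsum_geometric]; ring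
  have hDn2 : (1:ℝ≥0∞) + 2 * Dn ≤ 1 + 2 * Dn * 2 ^ θ := by
    refine add_le_add le_rfl ?_
    calc 2 * Dn = 2 * Dn * 1 := (mul_one _).symm
      _ ≤ 2 * Dn * 2 ^ θ :=
        mul_le_mul' le_rfl (ENNReal.one_le_rpow (by norm_num) hθ0)
  by_cases hG : G ^ p⁻¹ ≤ A
  · rw [max_eq_left hG]
    calc X ≤ A * 2 ^ 0 + 2 * Dn * ((A * 2 ^ 0) ^ (-θ) * G ^ q⁻¹) := hsum 0
      _ ≤ A + 2 * Dn * (A ^ (-θ) * A ^ (p / q)) := by
        rw [pow_zero, mul_one]
        gcongr
        calc G ^ q⁻¹ = (G ^ p⁻¹) ^ (p / q) := by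
              rw [← ENNReal.rpow_mul]; congr 1; field_simp
          _ ≤ A ^ (p / q) := by gcongr
      _ = (1 + 2 * Dn) * A := by
        rw [← ENNReal.rpow_add _ _ hA hAt]
        have : -θ + p / q = 1 := by rw [hθ]; ring
        rw [this, ENNReal.rpow_one]; ring
      _ ≤ _ := by gcongr
  · rw [not_le] at hG
    rw [max_eq_right hG.le]
    by_cases hGt : G ^ p⁻¹ = ∞
    · rw [hGt, ENNReal.mul_top]
      · exact le_top
      · have : (0:ℝ≥0∞) < 1 + 2 * Dn * 2 ^ θ := by positivity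
        exact this.ne'
    set Y := G ^ p⁻¹ with hY
    have hY0 : Y ≠ 0 := (bot_lt_of_lt hG).ne'
    have hex : ∃ J : ℕ, Y < A * 2 ^ J := by
      have h1 : Tendsto (fun k : ℕ => A * 2 ^ k) atTop (𝓝 ∞) := by
        have : Tendsto (fun k : ℕ => (2:ℝ≥0∞) ^ k) atTop (𝓝 ∞) :=
          ENNReal.tendsto_pow_atTop_nhds_top_iff.2 (by norm_num)
        have h2 := ENNReal.Tendsto.const_mul (a := A) this (Or.inl (by simp))
        rwa [ENNReal.mul_top hA] at h2
      exact (h1.eventually (lt_mem_nhds (lt_top_iff_ne_top.2 hGt))).exists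
    classical
    set J1 := Nat.find hex with hJ1
    have h1 : Y < A * 2 ^ J1 := Nat.find_spec hex
    have h2 : J1 ≠ 0 := by
      intro h
      rw [h, pow_zero, mul_one] at h1
      exact absurd h1 (not_lt.2 hG.le)
    obtain ⟨J, hJ⟩ := Nat.exists_eq_succ_of_ne_zero h2
    have h3 : A * 2 ^ J ≤ Y := by
      by_contra h
      exact Nat.find_min hex (m := J) (by omega) (not_le.1 h)
    have h4 : Y ≤ 2 * (A * 2 ^ J) := by
      rw [hJ] at h1
      refine h1.le.trans (le_of_eq ?_)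
      rw [Nat.succ_eq_add_one]; ring
    have h5 : (A * 2 ^ J) ^ (-θ) ≤ 2 ^ θ * Y ^ (-θ) := by
      have h6 : Y ^ θ ≤ 2 ^ θ * (A * 2 ^ J) ^ θ := by
        rw [← ENNReal.mul_rpow_of_nonneg _ _ hθ0.le]
        gcongr
      have h7 : Y ^ θ ≠ 0 := by simp [ENNReal.rpow_eq_zero_iff, hY0, hGt]
      have h8 : Y ^ θ ≠ ∞ := by simp [ENNReal.rpow_eq_top_iff, hY0, hGt]
      have h9 : (A * 2 ^ J) ^ θ ≠ 0 := by
        simp only [ne_eq, ENNReal.rpow_eq_zero_iff, (hlev J).1, (hlev J).2, false_and, or_self,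
          not_false_eq_true]
      have h10 : (A * 2 ^ J) ^ θ ≠ ∞ := by
        simp only [ne_eq, ENNReal.rpow_eq_top_iff, (hlev J).1, (hlev J).2, false_and, or_self,
          not_false_eq_true]
      rw [ENNReal.rpow_neg, ENNReal.rpow_neg]
      calc ((A * 2 ^ J) ^ θ)⁻¹ = ((A * 2 ^ J) ^ θ)⁻¹ * (Y ^ θ * (Y ^ θ)⁻¹) := by
            rw [ENNReal.mul_inv_cancel h7 h8, mul_one]
        _ ≤ ((A * 2 ^ J) ^ θ)⁻¹ * ((2 ^ θ * (A * 2 ^ J) ^ θ) * (Y ^ θ)⁻¹) := by gcongr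
        _ = (((A * 2 ^ J) ^ θ)⁻¹ * (A * 2 ^ J) ^ θ) * (2 ^ θ * (Y ^ θ)⁻¹) := by ring
        _ = 2 ^ θ * (Y ^ θ)⁻¹ := by rw [ENNReal.inv_mul_cancel h9 h10, one_mul]
    calc X ≤ A * 2 ^ J + 2 * Dn * ((A * 2 ^ J) ^ (-θ) * G ^ q⁻¹) := hsum J
      _ ≤ Y + 2 * Dn * ((2 ^ θ * Y ^ (-θ)) * Y ^ (p / q)) := by
        gcongr
        rw [hY, ← ENNReal.rpow_mul]
        apply le_of_eq
        congr 1
        field_simp
      _ = Y + 2 * Dn * 2 ^ θ * (Y ^ (-θ) * Y ^ (p / q)) := by ring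
      _ = (1 + 2 * Dn * 2 ^ θ) * Y := by
        rw [← ENNReal.rpow_add _ _ hY0 hGt]
        have : -θ + p / q = 1 := by rw [hθ]; ring
        rw [this, ENNReal.rpow_one]; ring

end Pool.Agent.Q201.KM
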