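import Pool.Agent.Q201.KM.Super

set_option autoImplicit false

open MeasureTheory Set Filter Topology ENNReal NNReal Metric
open scoped Pointwise

namespace Pool.Agent.Q201.KM

/-- Exponents above the dimension: no loss. -/
theorem fun_est_super (m : ℕ) (p : ℝ) (hp : (m:ℝ) + 1 < p) : ∃ C : ℝ≥0∞, C ≠ ∞ ∧
    ∀ (N : ℕ) (K : ℝ≥0∞) (δ : ℝ) (g : E (m + 1) → ℝ≥0∞),
    1 ≤ N → 1 ≤ K → 0 < δ → Measurable g → (∀ y, g y ≠ ∞) →
    (∀ s : ℝ≥0∞, s ≠ 0 → s ≠ ∞ → ∃ A : Fin N → Set (E (m + 1)), (∀ i, NullMeasurableSet (A i)) ∧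
      {x | s < g x} ⊆ ⋃ i, A i ∧ ∑ i, volume (A i - A i) ≤ K * volume {x | s < g x}) →
    ∫⁻ e : sphere (0 : E (m + 1)) 1, km δ g e ^ p ∂(sg m) ≤
      C * ((N : ℝ≥0∞) ^ m * K) * ∫⁻ y, g y ^ p := by
  have hm0 : (0:ℝ) ≤ m := Nat.cast_nonneg m
  have hp1 : 1 ≤ p := by linarith
  have hp0 : 0 < p := by linarith
  have hq0 : (0:ℝ) < (m:ℝ) + 1 := by positivity
  set θ : ℝ := p / ((m:ℝ) + 1) - 1 with hθ
  have hθ0 : 0 < θ := by
    rw [hθ, sub_pos, one_lt_div hq0]; exact hp
  set C1 : ℝ≥0∞ := 1 + 2 * (1 - 2 ^ (-θ))⁻¹ * 2 ^ θ with hC1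
  have hC1t : C1 ≠ ∞ := by
    apply ENNReal.add_ne_top.2 ⟨ENNReal.one_ne_top, ?_⟩
    apply ENNReal.mul_ne_top
    · apply ENNReal.mul_ne_top (by norm_num)
      apply ENNReal.inv_ne_top.2
      have : (2:ℝ≥0∞) ^ (-θ) < 1 :=
        ENNReal.rpow_lt_one_of_one_lt_of_neg (by norm_num) (by linarith)
      exact (tsub_pos_iff_lt.2 this).ne'
    · exact ENNReal.rpow_ne_top_of_nonneg hθ0.le (by norm_num)
  have hC10 : C1 ≠ 0 := by
    have : (0:ℝ≥0∞) < C1 := by rw [hC1]; positivity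
    exact this.ne'
  set C : ℝ≥0∞ := C1 ^ p * ((sg m) univ + (m + 1) * 2 ^ p) with hC
  have h2p : (2:ℝ≥0∞) ^ p ≠ ∞ := ENNReal.rpow_ne_top_of_nonneg hp0.le (by norm_num)
  refine ⟨C, ?_, ?_⟩
  · apply ENNReal.mul_ne_top (ENNReal.rpow_ne_top_of_nonneg hp0.le hC1t)
    apply ENNReal.add_ne_top.2 ⟨measure_ne_top _ _, ?_⟩
    apply ENNReal.mul_ne_top _ h2p
    exact ENNReal.add_ne_top.2 ⟨ENNReal.natCast_ne_top _, ENNReal.one_ne_top⟩
  intro N K δ g hN hK hδ hg hgt hcov
  set F : ℝ≥0∞ := ∫⁻ y, g y ^ p with hF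
  have h2p0 : (0:ℝ≥0∞) < 2 ^ p := ENNReal.rpow_pos (by norm_num) (by norm_num)
  have hC0 : C ≠ 0 := by
    apply mul_ne_zero
    · exact (ENNReal.rpow_pos (pos_iff_ne_zero.2 hC10) hC1t).ne'
    · intro h
      have h1 := (add_eq_zero.1 h).2
      have : (0:ℝ≥0∞) < ((m:ℝ≥0∞) + 1) * 2 ^ p := by positivity
      exact this.ne' h1
  have hN0 : (N : ℝ≥0∞) ^ m ≠ 0 := by
    apply pow_ne_zero
    have : N ≠ 0 := by omega
    exact_mod_cast this
  have hK0 : K ≠ 0 := (lt_of_lt_of_le zero_lt_one hK).ne'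
  by_cases hFt : F = ∞
  · rw [hFt, ENNReal.mul_top]
    · exact le_top
    · exact mul_ne_zero hC0 (mul_ne_zero hN0 hK0)
  by_cases hF0 : F = 0
  · have h1 : ∀ᵐ y, g y = 0 := by
      rw [hF, lintegral_eq_zero_iff (hg.pow_const _)] at hF0
      filter_upwards [hF0] with y hy
      simp only [Pi.zero_apply, ENNReal.rpow_eq_zero_iff] at hy
      rcases hy with hy | hy
      · exact hy.1
      · exact absurd hy.2 (not_lt.2 hp0.le)
    have h2 : ∀ e : E (m + 1), km δ g e = 0 := by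
      intro e
      unfold km
      rw [ENNReal.iSup_eq_zero]
      intro a
      rw [setLIntegral_congr_fun_ae (tb_closed δ e a).measurableSet
        (g := fun _ => 0) (h1.mono fun y hy _ => hy)]
      simp
    simp [h2, hp0]
  set A : ℝ≥0∞ := F ^ p⁻¹ with hA
  have hAF : A ^ p = F := by
    rw [hA, ← ENNReal.rpow_mul, inv_mul_cancel₀ hp0.ne', ENNReal.rpow_one]
  have hA0 : A ≠ 0 := by
    intro h; rw [h, ENNReal.zero_rpow_of_pos hp0] at hAF; exact hF0 hAF.symm
  have hAt : A ≠ ∞ := by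
    intro h; rw [h, ENNReal.top_rpow_of_pos hp0] at hAF; exact hFt hAF.symm
  have hlev : ∀ j : ℕ, A * 2 ^ j ≠ 0 ∧ A * 2 ^ j ≠ ∞ := fun j =>
    ⟨mul_ne_zero hA0 (by positivity), ENNReal.mul_ne_top hAt (ENNReal.pow_ne_top (by norm_num))⟩
  have hlevp : ∀ j : ℕ, (A * 2 ^ j) ^ p ≠ ∞ := fun j =>
    ENNReal.rpow_ne_top_of_nonneg hp0.le (hlev j).2
  set L : ℕ → Set (E (m + 1)) := fun j => {x | A * 2 ^ j < g x} with hL
  have hLm : ∀ j, MeasurableSet (L j) := fun j => measurableSet_lt measurable_const hg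
  have hind : ∀ j, (fun y => if A * 2 ^ j < g y then (1:ℝ≥0∞) else 0) = (L j).indicator 1 := by
    intro j
    funext y
    by_cases h : A * 2 ^ j < g y
    · rw [if_pos h, indicator_of_mem (show y ∈ L j from h)]; rfl
    · rw [if_neg h, indicator_of_notMem (show y ∉ L j from h)]
  have hM : ∀ j : ℕ, ∃ M : sphere (0 : E (m + 1)) 1 → ℝ≥0∞, Measurable M ∧
      (∀ (e : sphere (0 : E (m + 1)) 1) (δ : ℝ) (b : E (m + 1)),
        volume (tb δ (e : E (m + 1)) b ∩ L j) ≤ M e * volume (tb δ (e : E (m + 1)) b)) ∧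
      ∫⁻ e, M e ^ (m + 1) ∂(sg m) ≤ (m + 1) * (N : ℝ≥0∞) ^ m * (K * volume (L j)) := by
    intro j
    obtain ⟨B, hB1, hB2, hB3⟩ := hcov (A * 2 ^ j) (hlev j).1 (hlev j).2
    obtain ⟨M, h1, h2, h3⟩ := set_est m B hB1 hB2
    exact ⟨M, h1, h2, h3.trans (by gcongr)⟩
  choose M hMm hMle hMint using hM
  set G : sphere (0 : E (m + 1)) 1 → ℝ≥0∞ := fun e =>
    ∑' j : ℕ, (A * 2 ^ j) ^ p * M j e ^ (m + 1) with hG
  have hdir : ∀ e : sphere (0 : E (m + 1)) 1, km δ g e ≤ C1 * max A (G e ^ p⁻¹) := by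
    intro e
    have he : ‖(e : E (m + 1))‖ = 1 := by simp
    unfold km
    apply iSup_le
    intro b
    set T := tb δ (e : E (m + 1)) b with hT
    have hTm : MeasurableSet T := (tb_closed _ _ _).measurableSet
    have hT0 : volume T ≠ 0 := by
      obtain ⟨c, hc, hvol⟩ := Pool.Agent.H742R2.Kk.volume_tube m
      have h1 := hvol δ e b hδ he
      have h2 : 0 < ENNReal.ofReal (c * δ ^ m) := by
        rw [ENNReal.ofReal_pos]; positivity
      exact (h2.trans_le h1).ne'
    have hTt : volume T ≠ ∞ := tb_volume_ne_top δ he b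
    apply core_pt hq0 hp A _ (G e) hA0 hAt (fun j => M j e)
    · intro j
      have : M j e ^ ((m:ℝ) + 1) = M j e ^ (m + 1) := by
        have h : ((m:ℝ) + 1) = ((m + 1 : ℕ) : ℝ) := by push_cast; rfl
        rw [h, ENNReal.rpow_natCast]
      rw [this]
      exact ENNReal.le_tsum (f := fun j => (A * 2 ^ j) ^ p * M j e ^ (m + 1)) j
    · intro J
      calc (volume T)⁻¹ * ∫⁻ y in T, g y
          ≤ (volume T)⁻¹ * ∫⁻ y in T, (A * 2 ^ J + ∑' k : ℕ, A * 2 ^ (J + k + 1) *
              (if A * 2 ^ (J + k) < g y then 1 else 0)) := by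
            gcongr with y
            exact level_tsum A (g y) hA0 (hgt y) J
        _ = (volume T)⁻¹ * (A * 2 ^ J * volume T + ∑' k : ℕ, A * 2 ^ (J + k + 1) *
              volume (T ∩ L (J + k))) := by
            congr 1
            rw [lintegral_add_left measurable_const, setLIntegral_const, lintegral_tsum]
            · congr 2
              funext k
              rw [lintegral_const_mul' _ _ (hlev (J + k + 1)).2, hind,
                lintegral_indicator_one (hLm _), Measure.restrict_apply (hLm _), inter_comm]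
            · intro k
              exact ((Measurable.ite (hLm _) measurable_const measurable_const).const_mul
                _).aemeasurable
        _ ≤ (volume T)⁻¹ * (A * 2 ^ J * volume T + ∑' k : ℕ, A * 2 ^ (J + k + 1) *
              (M (J + k) e * volume T)) := by
            gcongr with k
            exact hMle _ e δ b
        _ = ((volume T)⁻¹ * volume T) * (A * 2 ^ J + ∑' k : ℕ, A * 2 ^ (J + k + 1) *
              M (J + k) e) := by
            simp_rw [← mul_assoc]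
            rw [ENNReal.tsum_mul_right]
            ring
        _ = _ := by rw [ENNReal.inv_mul_cancel hT0 hTt, one_mul]
  have hGint : ∫⁻ e, G e ∂(sg m) ≤ (m + 1) * ((N : ℝ≥0∞) ^ m * K) * (2 ^ p * F) := by
    calc ∫⁻ e, G e ∂(sg m) = ∑' j : ℕ, (A * 2 ^ j) ^ p * ∫⁻ e, M j e ^ (m + 1) ∂(sg m) := by
          simp only [hG]
          rw [lintegral_tsum]
          · congr 1
            funext j
            rw [lintegral_const_mul' _ _ (hlevp j)]
          · intro j
            exact (((hMm j).pow_const _).const_mul _).aemeasurable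
      _ ≤ ∑' j : ℕ, (A * 2 ^ j) ^ p * ((m + 1) * (N : ℝ≥0∞) ^ m * (K * volume (L j))) := by
          gcongr with j
          exact hMint j
      _ = (m + 1) * ((N : ℝ≥0∞) ^ m * K) * ∑' j : ℕ, (A * 2 ^ j) ^ p * volume (L j) := by
          rw [← ENNReal.tsum_mul_left]
          congr 1
          funext j
          ring
      _ = (m + 1) * ((N : ℝ≥0∞) ^ m * K) * ∫⁻ y, ∑' j : ℕ, (A * 2 ^ j) ^ p *
            (if A * 2 ^ j < g y then 1 else 0) := by
          congr 1
          rw [lintegral_tsum]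
          · congr 1
            funext j
            rw [lintegral_const_mul' _ _ (hlevp j), hind, lintegral_indicator_one (hLm j)]
          · intro j
            exact ((Measurable.ite (hLm _) measurable_const measurable_const).const_mul
                _).aemeasurable
      _ ≤ (m + 1) * ((N : ℝ≥0∞) ^ m * K) * ∫⁻ y, 2 ^ p * g y ^ p := by
          gcongr with y
          rw [ENNReal.tsum_eq_iSup_nat]
          apply iSup_le
          intro J
          refine (level_sum_rpow hp1 A (g y) J).trans ?_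
          calc (min (2 * g y) (A * 2 ^ J)) ^ p ≤ (2 * g y) ^ p := by
                gcongr
                exact min_le_left _ _
            _ = 2 ^ p * g y ^ p := ENNReal.mul_rpow_of_nonneg _ _ hp0.le
      _ = _ := by rw [lintegral_const_mul' _ _ h2p]
  have h1NK : (1:ℝ≥0∞) ≤ (N : ℝ≥0∞) ^ m * K := by
    have h2 : (1:ℝ≥0∞) ≤ (N : ℝ≥0∞) := by exact_mod_cast hN
    calc (1:ℝ≥0∞) = 1 ^ m * 1 := by simp
      _ ≤ (N : ℝ≥0∞) ^ m * K := by gcongr
  calc ∫⁻ e : sphere (0 : E (m + 1)) 1, km δ g e ^ p ∂(sg m)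
      ≤ ∫⁻ e, C1 ^ p * (F + G e) ∂(sg m) := by
        apply lintegral_mono
        intro e
        calc km δ g e ^ p ≤ (C1 * max A (G e ^ p⁻¹)) ^ p := by gcongr; exact hdir e
          _ = C1 ^ p * (max A (G e ^ p⁻¹)) ^ p := ENNReal.mul_rpow_of_nonneg _ _ hp0.le
          _ ≤ C1 ^ p * (F + G e) := by
            gcongr
            rcases max_cases A (G e ^ p⁻¹) with h | h
            · rw [h.1, hAF]; exact le_add_right le_rfl
            · rw [h.1, ← ENNReal.rpow_mul, inv_mul_cancel₀ hp0.ne', ENNReal.rpow_one]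
              exact le_add_left le_rfl
    _ = C1 ^ p * (F * (sg m) univ + ∫⁻ e, G e ∂(sg m)) := by
        rw [lintegral_const_mul' _ _ (ENNReal.rpow_ne_top_of_nonneg hp0.le hC1t),
          lintegral_add_left measurable_const, lintegral_const]
    _ ≤ C1 ^ p * ((((N : ℝ≥0∞) ^ m * K) * F) * (sg m) univ +
          (m + 1) * ((N : ℝ≥0∞) ^ m * K) * (2 ^ p * F)) := by
        gcongr
        calc F = 1 * F := (one_mul _).symm
          _ ≤ _ := by gcongr
    _ = _ := by rw [hC]; ring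

end Pool.Agent.Q201.KM
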